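import Mathlib

/-!
# Additive maps which are `p⁻¹`-linear

General lemmas on additive maps `φ` with `φ (a ^ p * b) = a * φ b`: extension to localizations,
to polynomials, to power series, and the standard one on multivariate polynomials over `ZMod p`.
-/

set_option autoImplicit false

namespace Pool.Agent.Lib_helper31

/-- Extension of a `p⁻¹`-linear map to a localization. -/
theorem exists_cartier_localization {R B : Type*} [CommRing R] [CommRing B] [Algebra R B]
    (M : Submonoid R) [IsLocalization M B] (p : ℕ) (hp : 0 < p) (φ : R →+ B)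
    (hφ : ∀ a b, φ (a ^ p * b) = algebraMap R B a * φ b) :
    ∃ ψ : B →+ B, (∀ a b, ψ (a ^ p * b) = a * ψ b) ∧
      ∀ r, ψ (algebraMap R B r) = φ r := by
  classical
  have hunit : ∀ m : M, IsUnit (algebraMap R B m) := fun m => IsLocalization.map_units B m
  -- the basic existence statement
  have hex : ∀ b : B, ∃ c : B, ∀ (r : R) (m : M), b * algebraMap R B m = algebraMap R B r →
      algebraMap R B m * c = φ (r * (m : R) ^ (p - 1)) := by
    intro b
    obtain ⟨⟨r0, m0⟩, h0⟩ := IsLocalization.surj M b
    obtain ⟨v, hv⟩ := hunit m0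
    simp only at h0
    refine ⟨(↑v⁻¹ : B) * φ (r0 * (m0 : R) ^ (p - 1)), fun r m h => ?_⟩
    have e1 : algebraMap R B (r0 * m) = algebraMap R B (r * m0) := by
      rw [map_mul, map_mul, ← h, ← h0]; ring
    obtain ⟨u, hu⟩ := (IsLocalization.eq_iff_exists M B).mp e1
    have hpp : ∀ x : R, x ^ p = x ^ (p - 1) * x := fun x => by
      rw [← pow_succ, Nat.sub_add_cancel hp]
    have e2 : algebraMap R B m * φ (r0 * (m0 : R) ^ (p - 1)) =
        algebraMap R B m0 * φ (r * (m : R) ^ (p - 1)) := by
      apply (hunit u).mul_left_cancel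
      rw [← hφ, ← hφ, ← hφ, ← hφ]
      congr 1
      rw [hpp u, hpp m, hpp m0]
      linear_combination ((u : R) ^ (p - 1) * (m : R) ^ (p - 1) * (m0 : R) ^ (p - 1)) * hu
    calc algebraMap R B m * ((↑v⁻¹ : B) * φ (r0 * (m0 : R) ^ (p - 1)))
        = (↑v⁻¹ : B) * (algebraMap R B m * φ (r0 * (m0 : R) ^ (p - 1))) := by ring
      _ = (↑v⁻¹ : B) * ((v : B) * φ (r * (m : R) ^ (p - 1))) := by rw [e2, hv]
      _ = φ (r * (m : R) ^ (p - 1)) := by rw [← mul_assoc, Units.inv_mul, one_mul]
  choose ψ hψ using hex
  have hadd : ∀ a b, ψ (a + b) = ψ a + ψ b := by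
    intro a b
    obtain ⟨⟨r, m⟩, h⟩ := IsLocalization.surj M a
    obtain ⟨⟨r', m'⟩, h'⟩ := IsLocalization.surj M b
    simp only at h h'
    have h1 := hψ a (r * m') (m * m') (by
      simp only [Submonoid.coe_mul, map_mul]; rw [← h]; ring)
    have h2 := hψ b (r' * m) (m * m') (by
      simp only [Submonoid.coe_mul, map_mul]; rw [← h']; ring)
    have h3 := hψ (a + b) (r * m' + r' * m) (m * m') (by
      simp only [Submonoid.coe_mul, map_mul, map_add]; rw [← h, ← h']; ring)
    apply (hunit (m * m')).mul_left_cancel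
    rw [h3, mul_add, h1, h2, ← map_add]
    congr 1
    ring
  refine ⟨AddMonoidHom.mk' ψ hadd, ?_, ?_⟩
  · intro a b
    change ψ (a ^ p * b) = a * ψ b
    obtain ⟨⟨r, m⟩, h⟩ := IsLocalization.surj M a
    obtain ⟨⟨r', m'⟩, h'⟩ := IsLocalization.surj M b
    simp only at h h'
    have h1 := hψ b r' m' h'
    have h2 := hψ (a ^ p * b) (r ^ p * r') (m ^ p * m') (by
      simp only [Submonoid.coe_mul, SubmonoidClass.coe_pow, map_mul, map_pow]
      rw [← h, ← h']; ring)
    apply (hunit (m ^ p * m')).mul_left_cancel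
    rw [h2]
    have e : r ^ p * r' * ((m ^ p * m' : M) : R) ^ (p - 1) =
        (r * (m : R) ^ (p - 1)) ^ p * (r' * (m' : R) ^ (p - 1)) := by
      simp only [Submonoid.coe_mul, SubmonoidClass.coe_pow]
      ring
    rw [e, hφ, ← h1]
    simp only [Submonoid.coe_mul, SubmonoidClass.coe_pow, map_mul, map_pow]
    rw [← h]
    have hpp : (algebraMap R B m) ^ p = (algebraMap R B m) ^ (p - 1) * algebraMap R B m := by
      rw [← pow_succ, Nat.sub_add_cancel hp]
    rw [hpp]
    ring
  · intro r
    change ψ (algebraMap R B r) = φ r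
    have := hψ (algebraMap R B r) r 1 (by simp)
    simpa using this

section Poly

open Polynomial

variable {R : Type*} [CommRing R]

/-- The coefficientwise extension of an additive map to polynomials, which keeps only the
coefficients with index divisible by `p`. -/
noncomputable def polyCartierFun (p : ℕ) (κ : R →+ R) (f : R[X]) : R[X] :=
  ∑ n ∈ Finset.range (f.natDegree + 1), monomial n (κ (f.coeff (p * n)))

lemma coeff_polyCartierFun (p : ℕ) (hp : p ≠ 0) (κ : R →+ R) (f : R[X]) (n : ℕ) :
    (polyCartierFun p κ f).coeff n = κ (f.coeff (p * n)) := by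
  rw [polyCartierFun, finsetSum_coeff]
  simp only [coeff_monomial]
  rw [Finset.sum_ite_eq' (Finset.range (f.natDegree + 1)) n (fun m => κ (f.coeff (p * m)))]
  split_ifs with h
  · rfl
  · have h1 : f.natDegree < n := by
      rw [Finset.mem_range] at h
      omega
    have h2 : n ≤ p * n := Nat.le_mul_of_pos_left n (Nat.pos_of_ne_zero hp)
    rw [coeff_eq_zero_of_natDegree_lt (lt_of_lt_of_le h1 h2), map_zero]

/-- The coefficientwise extension of an additive map to polynomials, which keeps only the
coefficients with index divisible by `p`, as an additive map. -/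
noncomputable def polyCartier (p : ℕ) (hp : p ≠ 0) (κ : R →+ R) : R[X] →+ R[X] where
  toFun := polyCartierFun p κ
  map_zero' := by
    ext n
    simp [coeff_polyCartierFun p hp]
  map_add' f g := by
    ext n
    simp [coeff_polyCartierFun p hp]

@[simp]
lemma coeff_polyCartier (p : ℕ) (hp : p ≠ 0) (κ : R →+ R) (f : R[X]) (n : ℕ) :
    (polyCartier p hp κ f).coeff n = κ (f.coeff (p * n)) :=
  coeff_polyCartierFun p hp κ f n

lemma polyCartier_C (p : ℕ) (hp : p ≠ 0) (κ : R →+ R) (a : R) :
    polyCartier p hp κ (C a) = C (κ a) := by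
  ext n
  rw [coeff_polyCartier, coeff_C, coeff_C]
  by_cases hn : n = 0
  · simp [hn]
  · have : p * n ≠ 0 := mul_ne_zero hp hn
    simp [hn, this]

lemma polyCartier_mul (p : ℕ) [hp' : Fact p.Prime] [CharP R p] (hp : p ≠ 0) (κ : R →+ R)
    (hκ : ∀ a b, κ (a ^ p * b) = a * κ b) (f g : R[X]) :
    polyCartier p hp κ (f ^ p * g) = f * polyCartier p hp κ g := by
  induction f using Polynomial.induction_on' with
  | add f₁ f₂ h₁ h₂ =>
    rw [add_pow_char, add_mul, map_add, h₁, h₂, add_mul]
  | monomial n a =>
    ext k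
    rw [coeff_polyCartier, monomial_pow, mul_comm n p]
    by_cases hk : n ≤ k
    · obtain ⟨m, rfl⟩ := Nat.exists_eq_add_of_le hk
      rw [mul_add, add_comm (p * n), add_comm n m, coeff_monomial_mul, coeff_monomial_mul,
        coeff_polyCartier, hκ]
    · have h1 : ¬ (p * n ≤ p * k) := by
        intro h
        exact hk (Nat.le_of_mul_le_mul_left h (Nat.pos_of_ne_zero hp))
      rw [← C_mul_X_pow_eq_monomial, ← C_mul_X_pow_eq_monomial, mul_assoc, mul_assoc,
        coeff_C_mul, coeff_C_mul, coeff_X_pow_mul', coeff_X_pow_mul', if_neg h1, if_neg hk]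
      simp

end Poly

section PS

open PowerSeries

variable {R : Type*} [CommRing R]

/-- Coefficients of a `p`-th power of a power series in characteristic `p`. -/
lemma coeff_pow_char (p : ℕ) [Fact p.Prime] [CharP R p] (F : PowerSeries R) (n : ℕ) :
    coeff n (F ^ p) = if p ∣ n then (coeff (n / p) F) ^ p else 0 := by
  have hp : p ≠ 0 := (Fact.out : p.Prime).ne_zero
  have h : (F.expand p hp).map (frobenius R p) = F ^ p := by
    have := MvPowerSeries.map_frobenius_expand (R := R) p hp (f := F)
    exact this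
  rw [← h, PowerSeries.coeff_map, coeff_expand]
  split_ifs with h1
  · rfl
  · simp

/-- The coefficientwise extension of an additive map to power series, which keeps only the
coefficients with index divisible by `p`. -/
noncomputable def psCartier (p : ℕ) (κ : R →+ R) : PowerSeries R →+ PowerSeries R where
  toFun F := PowerSeries.mk fun n => κ (coeff (p * n) F)
  map_zero' := by ext n; simp
  map_add' F G := by ext n; simp

@[simp]
lemma coeff_psCartier (p : ℕ) (κ : R →+ R) (F : PowerSeries R) (n : ℕ) :
    coeff n (psCartier p κ F) = κ (coeff (p * n) F) := by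
  simp [psCartier]

lemma psCartier_mul (p : ℕ) [hp' : Fact p.Prime] [CharP R p] (κ : R →+ R)
    (hκ : ∀ a b, κ (a ^ p * b) = a * κ b) (F G : PowerSeries R) :
    psCartier p κ (F ^ p * G) = F * psCartier p κ G := by
  have hp : p ≠ 0 := (Fact.out : p.Prime).ne_zero
  ext n
  rw [coeff_psCartier, coeff_mul, coeff_mul, map_sum]
  simp only [coeff_psCartier, coeff_pow_char]
  -- terms with first index not divisible by `p` vanish
  have e : (Finset.HasAntidiagonal.antidiagonal (p * n)).filter (fun x => p ∣ x.1) =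
      (Finset.HasAntidiagonal.antidiagonal n).image (fun x => (p * x.1, p * x.2)) := by
    ext ⟨a, b⟩
    simp only [Finset.mem_filter, Finset.HasAntidiagonal.mem_antidiagonal, Finset.mem_image, Prod.mk.injEq,
      Prod.exists]
    constructor
    · rintro ⟨h1, ⟨c, rfl⟩⟩
      have h2 : p ∣ b := by
        have : p ∣ p * c + b := h1 ▸ dvd_mul_right p n
        exact (Nat.dvd_add_right (dvd_mul_right p c)).mp this
      obtain ⟨d, rfl⟩ := h2
      refine ⟨c, d, ?_, rfl, rfl⟩
      have : p * (c + d) = p * n := by rw [mul_add]; exact h1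
      exact Nat.eq_of_mul_eq_mul_left (Nat.pos_of_ne_zero hp) this
    · rintro ⟨c, d, h1, rfl, rfl⟩
      exact ⟨by rw [← mul_add, h1], dvd_mul_right p c⟩
  have e2 : ∑ x ∈ Finset.HasAntidiagonal.antidiagonal (p * n),
      κ ((if p ∣ x.1 then (coeff (x.1 / p) F) ^ p else 0) * coeff x.2 G) =
      ∑ x ∈ (Finset.HasAntidiagonal.antidiagonal (p * n)).filter (fun x => p ∣ x.1),
        κ ((coeff (x.1 / p) F) ^ p * coeff x.2 G) := by
    rw [Finset.sum_filter]
    apply Finset.sum_congr rfl
    intro x _
    split_ifs with h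
    · rfl
    · simp
  rw [e2, e, Finset.sum_image]
  · apply Finset.sum_congr rfl
    intro x _
    rw [hκ, Nat.mul_div_cancel_left _ (Nat.pos_of_ne_zero hp)]
  · intro x _ y _ h
    simp only [Prod.mk.injEq] at h
    exact Prod.ext (Nat.eq_of_mul_eq_mul_left (Nat.pos_of_ne_zero hp) h.1)
      (Nat.eq_of_mul_eq_mul_left (Nat.pos_of_ne_zero hp) h.2)

end PS

end Pool.Agent.Lib_helper31
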