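import Mathlib

/-!
# Additive maps satisfying the Leibniz rule
-/

set_option autoImplicit false

namespace Pool.Agent.Lib_helper31

/-- The Leibniz rule. -/
def Leibniz {R : Type*} [CommRing R] (d : R →+ R) : Prop :=
  ∀ a b, d (a * b) = d a * b + a * d b

section basic

variable {R : Type*} [CommRing R] {d : R →+ R} (hd : Leibniz d)

include hd

lemma Leibniz.map_one : d 1 = 0 := by
  have := hd 1 1
  simp only [mul_one, one_mul] at this
  exact left_eq_add.mp this

lemma Leibniz.map_pow (a : R) (n : ℕ) : d (a ^ n) = n * a ^ (n - 1) * d a := by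
  induction n with
  | zero => simp [hd.map_one]
  | succ n ih =>
    rw [pow_succ, hd, ih]
    rcases n with _ | n
    · simp
    · simp only [Nat.add_sub_cancel]
      push_cast
      ring

lemma Leibniz.map_mul_eq_zero {a b : R} (ha : d a = 0) (hb : d b = 0) : d (a * b) = 0 := by
  rw [hd, ha, hb, zero_mul, mul_zero, add_zero]

lemma Leibniz.map_pow_eq_zero {a : R} (ha : d a = 0) (n : ℕ) : d (a ^ n) = 0 := by
  rw [hd.map_pow, ha, mul_zero]

end basic

/-- Extension of a derivation to the fraction field. -/
theorem exists_der_fraction {A L : Type*} [CommRing A] [IsDomain A] [Field L] [Algebra A L]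
    [IsFractionRing A L] (d : A →+ A) (hd : Leibniz d) :
    ∃ D : L →+ L, Leibniz D ∧ ∀ a, D (algebraMap A L a) = algebraMap A L (d a) := by
  classical
  have hne : ∀ b : A, b ≠ 0 → algebraMap A L b ≠ 0 := fun b hb h =>
    hb ((IsFractionRing.injective A L) (by rw [h, map_zero]))
  have hex : ∀ l : L, ∃ c : L, ∀ a b : A, l * algebraMap A L b = algebraMap A L a →
      c * algebraMap A L b = algebraMap A L (d a) - l * algebraMap A L (d b) := by
    intro l
    obtain ⟨a0, b0, hb0, rfl⟩ := IsFractionRing.div_surjective (A := A) l
    have hb0' : b0 ≠ 0 := nonZeroDivisors.ne_zero hb0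
    have hb0L := hne b0 hb0'
    refine ⟨(algebraMap A L (d a0) - algebraMap A L a0 / algebraMap A L b0 *
      algebraMap A L (d b0)) / algebraMap A L b0, fun a b h => ?_⟩
    have e1 : a * b0 = a0 * b := by
      apply IsFractionRing.injective A L
      rw [map_mul, map_mul, ← h]
      field_simp
    have e2 := congrArg d e1
    rw [hd, hd] at e2
    have e3 := congrArg (algebraMap A L) e2
    have e4 := congrArg (algebraMap A L) e1
    simp only [map_add, map_mul] at e3 e4
    field_simp
    linear_combination (-(algebraMap A L b0)) * e3 + (algebraMap A L (d b0)) * e4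
  choose D hD using hex
  have huniq : ∀ l c : L, ∀ a b : A, b ≠ 0 → l * algebraMap A L b = algebraMap A L a →
      c * algebraMap A L b = algebraMap A L (d a) - l * algebraMap A L (d b) → c = D l := by
    intro l c a b hb h hc
    apply mul_right_cancel₀ (hne b hb)
    rw [hc, hD l a b h]
  have hadd : ∀ l l', D (l + l') = D l + D l' := by
    intro l l'
    obtain ⟨a, b, hb, h⟩ := IsFractionRing.div_surjective (A := A) l
    obtain ⟨a', b', hb', h'⟩ := IsFractionRing.div_surjective (A := A) l'
    have hb0 := nonZeroDivisors.ne_zero hb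
    have hb0' := nonZeroDivisors.ne_zero hb'
    have k : l * algebraMap A L b = algebraMap A L a := by
      rw [← h]; exact div_mul_cancel₀ _ (hne b hb0)
    have k' : l' * algebraMap A L b' = algebraMap A L a' := by
      rw [← h']; exact div_mul_cancel₀ _ (hne b' hb0')
    symm
    apply huniq (l + l') (D l + D l') (a * b' + a' * b) (b * b') (mul_ne_zero hb0 hb0')
    · rw [map_mul, map_add, map_mul, map_mul, ← k, ← k']; ring
    · have e1 := hD l a b k
      have e2 := hD l' a' b' k'
      rw [map_add d, hd, hd, hd]
      simp only [map_add, map_mul]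
      rw [← k, ← k']
      linear_combination (algebraMap A L b') * e1 + (algebraMap A L b) * e2
  refine ⟨AddMonoidHom.mk' D hadd, ?_, ?_⟩
  · intro l l'
    change D (l * l') = D l * l' + l * D l'
    obtain ⟨a, b, hb, h⟩ := IsFractionRing.div_surjective (A := A) l
    obtain ⟨a', b', hb', h'⟩ := IsFractionRing.div_surjective (A := A) l'
    have hb0 := nonZeroDivisors.ne_zero hb
    have hb0' := nonZeroDivisors.ne_zero hb'
    have k : l * algebraMap A L b = algebraMap A L a := by
      rw [← h]; exact div_mul_cancel₀ _ (hne b hb0)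
    have k' : l' * algebraMap A L b' = algebraMap A L a' := by
      rw [← h']; exact div_mul_cancel₀ _ (hne b' hb0')
    symm
    apply huniq (l * l') _ (a * a') (b * b') (mul_ne_zero hb0 hb0')
    · rw [map_mul, map_mul, ← k, ← k']; ring
    · have e1 := hD l a b k
      have e2 := hD l' a' b' k'
      rw [hd, hd]
      simp only [map_add, map_mul]
      rw [← k, ← k']
      linear_combination (l' * algebraMap A L b') * e1 + (l * algebraMap A L b) * e2
  · intro a
    change D (algebraMap A L a) = algebraMap A L (d a)
    symm
    apply huniq _ _ a 1 one_ne_zero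
    · simp
    · rw [hd.map_one]; simp

/-- Uniqueness of the extension of a derivation to the fraction field. -/
theorem der_unique {A L : Type*} [CommRing A] [IsDomain A] [Field L] [Algebra A L]
    [IsFractionRing A L] (D D' : L →+ L) (hD : Leibniz D) (hD' : Leibniz D')
    (h : ∀ a : A, D (algebraMap A L a) = D' (algebraMap A L a)) (l : L) : D l = D' l := by
  obtain ⟨a, b, hb, rfl⟩ := IsFractionRing.div_surjective (A := A) l
  have hb0 : algebraMap A L b ≠ 0 := fun h =>
    nonZeroDivisors.ne_zero hb ((IsFractionRing.injective A L) (by rw [h, map_zero]))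
  set l := algebraMap A L a / algebraMap A L b with hl
  have e : l * algebraMap A L b = algebraMap A L a := div_mul_cancel₀ _ hb0
  have e1 := congrArg D e
  have e2 := congrArg D' e
  rw [hD, h, h] at e1
  rw [hD'] at e2
  apply mul_right_cancel₀ hb0
  linear_combination e1 - e2

/-- A quotient of constants is a constant. -/
theorem der_div_eq_zero {L : Type*} [Field L] (D : L →+ L) (hD : Leibniz D) (a b : L)
    (ha : D a = 0) (hb : D b = 0) : D (a / b) = 0 := by
  by_cases hb0 : b = 0
  · simp [hb0]
  have e : (a / b) * b = a := div_mul_cancel₀ _ hb0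
  have e1 := congrArg D e
  rw [hD, ha, hb, mul_zero, add_zero] at e1
  rcases mul_eq_zero.mp e1 with h | h
  · exact h
  · exact absurd h hb0

/-- Coefficientwise derivation of power series. -/
noncomputable def psDer {R : Type*} [CommRing R] (d : R →+ R) : PowerSeries R →+ PowerSeries R where
  toFun F := PowerSeries.mk fun n => d (PowerSeries.coeff n F)
  map_zero' := by ext n; simp
  map_add' F G := by ext n; simp

@[simp]
lemma coeff_psDer {R : Type*} [CommRing R] (d : R →+ R) (F : PowerSeries R) (n : ℕ) :
    PowerSeries.coeff n (psDer d F) = d (PowerSeries.coeff n F) := by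
  simp [psDer]

lemma psDer_leibniz {R : Type*} [CommRing R] (d : R →+ R) (hd : Leibniz d) :
    Leibniz (psDer d) := by
  intro F G
  ext n
  rw [coeff_psDer, PowerSeries.coeff_mul, map_sum, map_add, PowerSeries.coeff_mul,
    PowerSeries.coeff_mul, ← Finset.sum_add_distrib]
  apply Finset.sum_congr rfl
  intro x _
  rw [hd, coeff_psDer, coeff_psDer]

lemma psDer_C {R : Type*} [CommRing R] (d : R →+ R) (a : R) :
    psDer d (PowerSeries.C a) = PowerSeries.C (d a) := by
  ext n
  rw [coeff_psDer, PowerSeries.coeff_C, PowerSeries.coeff_C]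
  split_ifs <;> simp

lemma psDer_X {R : Type*} [CommRing R] (d : R →+ R) (hd : Leibniz d) :
    psDer d (PowerSeries.X : PowerSeries R) = 0 := by
  ext n
  rw [coeff_psDer, PowerSeries.coeff_X]
  split_ifs
  · simp [hd.map_one]
  · simp

end Pool.Agent.Lib_helper31
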