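import Mathlib

/-!
# The standard `p⁻¹`-linear map on multivariate polynomials over `ZMod p`
-/

set_option autoImplicit false

namespace Pool.Agent.Lib_helper31

open MvPolynomial

variable {σ : Type*} (p : ℕ)

/-- Divide all exponents by `p`. -/
noncomputable def divExp (α : σ →₀ ℕ) : σ →₀ ℕ := α.mapRange (· / p) (Nat.zero_div p)

lemma divExp_smul (hp : 0 < p) (α : σ →₀ ℕ) : divExp p (p • α) = α := by
  ext i
  simp [divExp, Nat.mul_div_cancel_left _ hp]

lemma smul_divExp {α : σ →₀ ℕ} (h : ∀ i, p ∣ α i) : p • divExp p α = α := by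
  ext i
  simp only [divExp, Finsupp.smul_apply, Finsupp.mapRange_apply, smul_eq_mul]
  exact Nat.mul_div_cancel' (h i)

open Classical in
/-- The standard map: it sends a monomial with all exponents divisible by `p` to its `p`-th root
and every other monomial to zero. -/
noncomputable def mvCartier : MvPolynomial σ (ZMod p) →ₗ[ZMod p] MvPolynomial σ (ZMod p) :=
  (MvPolynomial.basisMonomials σ (ZMod p)).constr (ZMod p)
    (fun α => if ∀ i, p ∣ α i then monomial (divExp p α) 1 else 0)

open Classical in
lemma mvCartier_monomial (α : σ →₀ ℕ) (c : ZMod p) :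
    mvCartier p (monomial α c) = if ∀ i, p ∣ α i then monomial (divExp p α) c else 0 := by
  have h : (monomial α c : MvPolynomial σ (ZMod p)) =
      c • (MvPolynomial.basisMonomials σ (ZMod p)) α := by
    simp [MvPolynomial.smul_monomial]
  rw [h, map_smul, mvCartier, Module.Basis.constr_basis]
  split_ifs with h1
  · simp [MvPolynomial.smul_monomial]
  · simp

lemma mvCartier_monomial_smul (hp : 0 < p) (α : σ →₀ ℕ) (c : ZMod p) :
    mvCartier p (monomial (p • α) c) = monomial α c := by
  rw [mvCartier_monomial, if_pos (by intro i; simp), divExp_smul p hp]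

lemma mvCartier_monomial_not {α : σ →₀ ℕ} (h : ¬ ∀ i, p ∣ α i) (c : ZMod p) :
    mvCartier p (monomial α c) = 0 := by
  rw [mvCartier_monomial, if_neg h]

lemma mvCartier_one [hp : Fact p.Prime] : mvCartier p (1 : MvPolynomial σ (ZMod p)) = 1 := by
  have := mvCartier_monomial_smul (σ := σ) p hp.out.pos 0 1
  simpa using this

lemma mvCartier_mul [hp : Fact p.Prime] (f g : MvPolynomial σ (ZMod p)) :
    mvCartier p (f ^ p * g) = f * mvCartier p g := by
  induction f using MvPolynomial.induction_on' with
  | add f₁ f₂ h₁ h₂ => rw [add_pow_char, add_mul, map_add, h₁, h₂, add_mul]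
  | monomial α c =>
    induction g using MvPolynomial.induction_on' with
    | add g₁ g₂ h₁ h₂ => rw [mul_add, map_add, h₁, h₂, map_add, mul_add]
    | monomial β d =>
      rw [monomial_pow, monomial_mul, ZMod.pow_card]
      by_cases h : ∀ i, p ∣ β i
      · rw [← smul_divExp p h, ← smul_add, mvCartier_monomial_smul p hp.out.pos,
          mvCartier_monomial_smul p hp.out.pos, monomial_mul]
      · have h' : ¬ ∀ i, p ∣ (p • α + β) i := by
          intro h2
          apply h
          intro i
          have := h2 i
          simp only [Finsupp.add_apply, Finsupp.smul_apply, smul_eq_mul] at this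
          exact (Nat.dvd_add_right (dvd_mul_right p _)).mp this
        rw [mvCartier_monomial_not p h, mvCartier_monomial_not p h', mul_zero]

/-- The Euler derivation attached to a weight function. -/
noncomputable def euler (ω : σ → ZMod p) :
    Derivation (ZMod p) (MvPolynomial σ (ZMod p)) (MvPolynomial σ (ZMod p)) :=
  mkDerivation (ZMod p) (fun i => ω i • X i)

lemma euler_X (ω : σ → ZMod p) (i : σ) : euler p ω (X i) = ω i • X i := by
  simp [euler]

lemma euler_monomial (ω : σ → ZMod p) (α : σ →₀ ℕ) (c : ZMod p) :
    euler p ω (monomial α c) = (α.sum fun i k => (k : ZMod p) * ω i) • monomial α c := by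
  rw [euler, mkDerivation_monomial, Finsupp.sum, Finsupp.sum, Finset.smul_sum, Finset.sum_smul]
  apply Finset.sum_congr rfl
  intro i hi
  have hi' : α i ≠ 0 := Finsupp.mem_support_iff.mp hi
  have e : α - Finsupp.single i 1 + Finsupp.single i 1 = α := by
    ext j
    by_cases hj : j = i
    · subst hj
      simp only [Finsupp.add_apply, Finsupp.tsub_apply, Finsupp.single_eq_same]
      omega
    · simp [Ne.symm hj]
  rw [smul_eq_mul, X, smul_monomial, monomial_mul, e, smul_monomial, smul_monomial]
  congr 1
  simp only [smul_eq_mul]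
  ring

lemma mvCartier_euler [hp : Fact p.Prime] (ω : σ → ZMod p) (f : MvPolynomial σ (ZMod p)) :
    mvCartier p (euler p ω f) = 0 := by
  induction f using MvPolynomial.induction_on' with
  | add f₁ f₂ h₁ h₂ => rw [map_add, map_add, h₁, h₂, add_zero]
  | monomial α c =>
    rw [euler_monomial, map_smul]
    by_cases h : ∀ i, p ∣ α i
    · have : (α.sum fun i k => (k : ZMod p) * ω i) = 0 := by
        apply Finset.sum_eq_zero
        intro i _
        change ((α i : ℕ) : ZMod p) * ω i = 0
        rw [(ZMod.natCast_eq_zero_iff _ _).mpr (h i), zero_mul]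
      rw [this, zero_smul]
    · rw [mvCartier_monomial_not p h, smul_zero]

/-- The Euler derivation kills polynomials whose variables all have weight zero. -/
lemma euler_eq_zero (ω : σ → ZMod p) (f : MvPolynomial σ (ZMod p))
    (h : ∀ i ∈ f.vars, ω i = 0) : euler p ω f = 0 := by
  apply derivation_eq_zero_of_forall_mem_vars
  intro i hi
  rw [euler_X, h i hi, zero_smul]

end Pool.Agent.Lib_helper31
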