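import Mathlib
import Pool.Agent.Lib_helper31.Cartier
import Pool.Agent.Lib_helper31.MvCartier
import Pool.Agent.Lib_helper31.Deriv

/-!
# Branch series

The polynomial ring `A`, the map `Φ` from `A` to the power series ring, its injectivity, and the
stability of its image under the coefficientwise `p⁻¹`-linear map.
-/

set_option autoImplicit false

namespace Pool.Agent.Lib_helper31.Branch

open Filter

/-- The constant variables. -/
inductive V0 : Type
  | z : V0
  | tau : (ℕ → Bool) → V0
  | e : List Bool → V0

/-- All variables. -/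
inductive VA : Type
  | c : V0 → VA
  | x : VA
  | w : (ℕ → Bool) → VA

/-- The initial segment of length `m` of a branch. -/
def nd (f : ℕ → Bool) (m : ℕ) : List Bool := (List.range m).map f

@[simp] lemma length_nd (f : ℕ → Bool) (m : ℕ) : (nd f m).length = m := by simp [nd]

lemma nd_ne {f g : ℕ → Bool} {k m : ℕ} (h : f k ≠ g k) (hkm : k < m) : nd f m ≠ nd g m := by
  intro h1
  have := List.map_inj_left.mp h1 k (List.mem_range.mpr hkm)
  exact h this

/-- Different branches are eventually different. -/
lemma eventually_nd_ne {f g : ℕ → Bool} (h : f ≠ g) : ∀ᶠ n in atTop, ∀ m, n ≤ m → nd f m ≠ nd g m := by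
  obtain ⟨k, hk⟩ := Function.ne_iff.mp h
  refine (eventually_gt_atTop k).mono fun n hn m hm => nd_ne hk (lt_of_lt_of_le hn hm)

variable (p : ℕ) [hp : Fact p.Prime]

/-- The coefficient ring. -/
abbrev A1 : Type := MvPolynomial V0 (ZMod p)

/-- The big polynomial ring. -/
abbrev A : Type := MvPolynomial VA (ZMod p)

open PowerSeries (C X coeff mk)

/-- The tails of the branch series. -/
noncomputable def Wt (f : ℕ → Bool) (n : ℕ) : PowerSeries (A1 p) :=
  mk fun k => if p ∣ k then MvPolynomial.X (V0.e (nd f (n + k / p))) else 0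

lemma coeff_Wt (f : ℕ → Bool) (n k : ℕ) :
    coeff k (Wt p f n) = if p ∣ k then MvPolynomial.X (V0.e (nd f (n + k / p))) else 0 := by
  simp [Wt]

lemma Wt_succ (f : ℕ → Bool) (n : ℕ) :
    Wt p f n = C (MvPolynomial.X (V0.e (nd f n))) + X ^ p * Wt p f (n + 1) := by
  have hp0 : 0 < p := hp.out.pos
  ext1 k
  rw [map_add, coeff_Wt, PowerSeries.coeff_C, PowerSeries.coeff_X_pow_mul', coeff_Wt]
  by_cases hk0 : k = 0
  · subst hk0
    rw [if_pos (dvd_zero p), if_pos rfl, if_neg (by omega)]
    simp
  by_cases hk : p ≤ k
  · rw [if_neg hk0, if_pos hk, zero_add]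
    obtain ⟨j, rfl⟩ := Nat.exists_eq_add_of_le hk
    rw [Nat.add_sub_cancel_left]
    have h1 : p ∣ p + j ↔ p ∣ j := Nat.dvd_add_right (dvd_refl p)
    have h2 : (p + j) / p = j / p + 1 := by rw [add_comm, Nat.add_div_right _ hp0]
    rw [h2]
    simp only [h1]
    have h3 : n + (j / p + 1) = n + 1 + j / p := by ring
    rw [h3]
  · have h1 : ¬ p ∣ k := fun h => hk (Nat.le_of_dvd (Nat.pos_of_ne_zero hk0) h)
    rw [if_neg h1, if_neg hk0, if_neg hk, zero_add]

/-- The heads of the branch series. -/
noncomputable def head (f : ℕ → Bool) (n : ℕ) : Polynomial (A1 p) :=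
  ∑ m ∈ Finset.range n, Polynomial.C (MvPolynomial.X (V0.e (nd f m))) * Polynomial.X ^ (p * m)

lemma Wt_zero_eq (f : ℕ → Bool) (n : ℕ) :
    Wt p f 0 = (head p f n : PowerSeries (A1 p)) + X ^ (p * n) * Wt p f n := by
  induction n with
  | zero => simp [head]
  | succ n ih =>
    rw [ih, Wt_succ p f n, head, head, Finset.sum_range_succ]
    simp only [Polynomial.coe_add, Polynomial.coe_mul, Polynomial.coe_C, Polynomial.coe_pow,
      Polynomial.coe_X]
    ring

/-- The images of the variables. -/
noncomputable def phiVar : VA → PowerSeries (A1 p)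
  | VA.c v => C (MvPolynomial.X v)
  | VA.x => X
  | VA.w f => Wt p f 0

/-- The map `Φ`. -/
noncomputable def Phi : A p →ₐ[ZMod p] PowerSeries (A1 p) := MvPolynomial.aeval (phiVar p)

lemma Phi_X (v : VA) : Phi p (MvPolynomial.X v) = phiVar p v := by simp [Phi]

section Injective

/-- The truncation of the coefficients at level `n`. -/
noncomputable def rho (n : ℕ) : A1 p →ₐ[ZMod p] A1 p :=
  MvPolynomial.aeval fun v => match v with
    | V0.z => MvPolynomial.X V0.z
    | V0.tau f => MvPolynomial.X (V0.tau f)
    | V0.e t => if t.length ≤ n then MvPolynomial.X (V0.e t) else 0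

/-- The truncated images of the variables. -/
noncomputable def psiVar (n : ℕ) : VA → Polynomial (A1 p)
  | VA.c v => Polynomial.C (rho p n (MvPolynomial.X v))
  | VA.x => Polynomial.X
  | VA.w f => head p f (n + 1)

/-- The truncated map. -/
noncomputable def Psi (n : ℕ) : A p →ₐ[ZMod p] Polynomial (A1 p) :=
  MvPolynomial.aeval (psiVar p n)

lemma rho_e (n : ℕ) (t : List Bool) :
    rho p n (MvPolynomial.X (V0.e t)) = if t.length ≤ n then MvPolynomial.X (V0.e t) else 0 := by
  simp [rho]

lemma map_rho_W (n : ℕ) (f : ℕ → Bool) :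
    PowerSeries.map (rho p n).toRingHom (Wt p f 0) =
      (head p f (n + 1) : PowerSeries (A1 p)) := by
  rw [Wt_zero_eq p f (n + 1), map_add, map_mul]
  have h1 : PowerSeries.map (rho p n).toRingHom (Wt p f (n + 1)) = 0 := by
    ext1 k
    rw [PowerSeries.coeff_map, coeff_Wt]
    split_ifs
    · change rho p n _ = _
      rw [rho_e, if_neg (by
        rw [length_nd]
        exact not_le.mpr (lt_of_lt_of_le (Nat.lt_succ_self n) (Nat.le_add_right _ _))), map_zero]
    · rw [map_zero, map_zero]
  rw [h1, mul_zero, add_zero]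
  have h2 : PowerSeries.map (rho p n).toRingHom (head p f (n + 1) : PowerSeries (A1 p)) =
      ((head p f (n + 1)).map (rho p n).toRingHom : Polynomial (A1 p)) := by
    rw [Polynomial.polynomial_map_coe]
  rw [h2]
  congr 1
  rw [head, Polynomial.map_sum]
  apply Finset.sum_congr rfl
  intro m hm
  rw [Polynomial.map_mul, Polynomial.map_pow, Polynomial.map_C, Polynomial.map_X]
  congr 2
  change rho p n _ = _
  rw [rho_e, if_pos]
  rw [length_nd]
  rw [Finset.mem_range] at hm
  omega

lemma coe_Psi (n : ℕ) (a : A p) :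
    (Psi p n a : PowerSeries (A1 p)) = PowerSeries.map (rho p n).toRingHom (Phi p a) := by
  have : ((Polynomial.coeToPowerSeries.ringHom (R := A1 p)).comp (Psi p n).toRingHom) =
      (PowerSeries.map (rho p n).toRingHom).comp (Phi p).toRingHom := by
    apply MvPolynomial.ringHom_ext
    · intro r
      have := Subsingleton.elim
        (((Polynomial.coeToPowerSeries.ringHom (R := A1 p)).comp (Psi p n).toRingHom).comp
          MvPolynomial.C)
        (((PowerSeries.map (rho p n).toRingHom).comp (Phi p).toRingHom).comp MvPolynomial.C)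
      exact RingHom.congr_fun this r
    · intro v
      change ((Psi p n (MvPolynomial.X v) : Polynomial (A1 p)) : PowerSeries (A1 p)) =
        PowerSeries.map (rho p n).toRingHom (Phi p (MvPolynomial.X v))
      rw [Phi_X, Psi, MvPolynomial.aeval_X]
      match v with
      | VA.c v => 
        simp only [psiVar, phiVar, Polynomial.coe_C, PowerSeries.map_C]
        rfl
      | VA.x => simp [psiVar, phiVar]
      | VA.w f => exact (map_rho_W p n f).symm
  exact congrArg (fun g => g a) this

/-- A good level for a finite set of variables. -/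
lemma exists_level (s : Finset VA) :
    ∃ n : ℕ, (∀ t, VA.c (V0.e t) ∈ s → t.length < n) ∧
      ∀ f g, VA.w f ∈ s → VA.w g ∈ s → nd f n = nd g n → f = g := by
  have h1 : ∀ᶠ n in atTop, ∀ v ∈ s, ∀ t, v = VA.c (V0.e t) → t.length < n := by
    rw [Finset.eventually_all]
    intro v _
    by_cases hv : ∃ t, v = VA.c (V0.e t)
    · obtain ⟨t, rfl⟩ := hv
      refine (eventually_gt_atTop t.length).mono ?_
      rintro n hn t' ht'
      injection ht' with ht'
      injection ht' with ht'
      rw [← ht']
      exact hn
    · exact Eventually.of_forall fun n t ht => absurd ⟨t, ht⟩ hv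
  have h2 : ∀ᶠ n in atTop, ∀ v ∈ s, ∀ v' ∈ s, ∀ f g, v = VA.w f → v' = VA.w g →
      nd f n = nd g n → f = g := by
    rw [Finset.eventually_all]
    intro v _
    rw [Finset.eventually_all]
    intro v' _
    by_cases hv : ∃ f g, v = VA.w f ∧ v' = VA.w g ∧ f ≠ g
    · obtain ⟨f, g, rfl, rfl, hfg⟩ := hv
      refine (eventually_nd_ne hfg).mono ?_
      rintro n hn f' g' hf' hg' h
      injection hf' with hf'
      injection hg' with hg'
      rw [← hf', ← hg'] at h
      exact absurd h (hn n le_rfl)
    · refine Eventually.of_forall fun n f g hf hg _ => ?_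
      by_contra hfg
      exact hv ⟨f, g, hf, hg, hfg⟩
  obtain ⟨n, hn1, hn2⟩ := (h1.and h2).exists
  exact ⟨n, fun t ht => hn1 _ ht t rfl, fun f g hf hg => hn2 _ hf _ hg f g rfl rfl⟩

open Classical in
theorem Phi_injective : Function.Injective (Phi p) := by
  rw [injective_iff_map_eq_zero]
  intro Q hQ
  obtain ⟨n, hn1, hn2⟩ := exists_level Q.vars
  let L := FractionRing (A p)
  let ι : A p →+* L := algebraMap (A p) L
  let headL : (ℕ → Bool) → L := fun f =>
    ∑ m ∈ Finset.range n, ι (MvPolynomial.X (VA.c (V0.e (nd f m)))) *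
      ι (MvPolynomial.X VA.x) ^ (p * m)
  let th1 : A1 p →ₐ[ZMod p] L := MvPolynomial.aeval fun v => match v with
    | V0.z => ι (MvPolynomial.X (VA.c V0.z))
    | V0.tau f => ι (MvPolynomial.X (VA.c (V0.tau f)))
    | V0.e t => if h : ∃ f, VA.w f ∈ Q.vars ∧ nd f n = t then
        (ι (MvPolynomial.X (VA.w h.choose)) - headL h.choose) / ι (MvPolynomial.X VA.x) ^ (p * n)
        else ι (MvPolynomial.X (VA.c (V0.e t)))
  let th : Polynomial (A1 p) →+* L :=
    Polynomial.eval₂RingHom th1.toRingHom (ι (MvPolynomial.X VA.x))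
  have hx : ι (MvPolynomial.X VA.x) ≠ 0 := by
    intro h
    have := (IsFractionRing.injective (A p) L) (h.trans (map_zero _).symm)
    exact MvPolynomial.X_ne_zero _ this
  have hth1e : ∀ t : List Bool, t.length ≠ n →
      th1 (MvPolynomial.X (V0.e t)) = ι (MvPolynomial.X (VA.c (V0.e t))) := by
    intro t ht
    have hno : ¬ ∃ f, VA.w f ∈ Q.vars ∧ nd f n = t := by
      rintro ⟨f, _, rfl⟩
      exact ht (length_nd f n)
    simp only [th1, MvPolynomial.aeval_X]
    rw [dif_neg hno]
  have hPsi : Psi p n Q = 0 := by
    apply Polynomial.coe_injective (A1 p)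
    rw [coe_Psi, hQ, map_zero, Polynomial.coe_zero]
  have key : (th.comp (Psi p n).toRingHom) Q = ι Q := by
    apply MvPolynomial.hom_congr_vars
    · exact Subsingleton.elim _ _
    · intro v hv _
      change th (Psi p n (MvPolynomial.X v)) = ι (MvPolynomial.X v)
      rw [Psi, MvPolynomial.aeval_X]
      match v with
      | VA.x => simp [psiVar, th]
      | VA.c V0.z => simp [psiVar, th, th1, rho]
      | VA.c (V0.tau f) => simp [psiVar, th, th1, rho]
      | VA.c (V0.e t) =>
        have ht := hn1 t hv
        simp only [psiVar, rho_e, if_pos ht.le]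
        change th (Polynomial.C (MvPolynomial.X (V0.e t))) = _
        simp only [th, Polynomial.coe_eval₂RingHom, Polynomial.eval₂_C]
        exact hth1e t ht.ne
      | VA.w f =>
        simp only [psiVar, head]
        rw [Finset.sum_range_succ, map_add, map_sum]
        have e1 : ∑ m ∈ Finset.range n, th (Polynomial.C (MvPolynomial.X (V0.e (nd f m))) *
            Polynomial.X ^ (p * m)) = headL f := by
          apply Finset.sum_congr rfl
          intro m hm
          simp only [th, map_mul, map_pow, Polynomial.coe_eval₂RingHom, Polynomial.eval₂_C,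
            Polynomial.eval₂_X]
          congr 1
          apply hth1e
          rw [length_nd]
          exact (Finset.mem_range.mp hm).ne
        have e2 : th (Polynomial.C (MvPolynomial.X (V0.e (nd f n))) *
            Polynomial.X ^ (p * n)) = ι (MvPolynomial.X (VA.w f)) - headL f := by
          simp only [th, map_mul, map_pow, Polynomial.coe_eval₂RingHom, Polynomial.eval₂_C,
            Polynomial.eval₂_X]
          have hex : ∃ f', VA.w f' ∈ Q.vars ∧ nd f' n = nd f n := ⟨f, hv, rfl⟩
          have hch : hex.choose = f :=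
            hn2 _ _ hex.choose_spec.1 hv hex.choose_spec.2
          have : th1 (MvPolynomial.X (V0.e (nd f n))) =
              (ι (MvPolynomial.X (VA.w f)) - headL f) / ι (MvPolynomial.X VA.x) ^ (p * n) := by
            simp only [th1, MvPolynomial.aeval_X]
            rw [dif_pos hex, hch]
          change th1 (MvPolynomial.X (V0.e (nd f n))) * _ = _
          rw [this]
          exact div_mul_cancel₀ _ (pow_ne_zero _ hx)
        rw [e1, e2]
        ring
    · rfl
  have h0 : ι Q = 0 := by
    rw [← key]
    change th (Psi p n Q) = 0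
    rw [hPsi, map_zero]
  exact (IsFractionRing.injective (A p) L) (h0.trans (map_zero _).symm)

end Injective

end Pool.Agent.Lib_helper31.Branch
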