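import Mathlib
import Pool.Agent.Lib_helper31.Cartier
import Pool.Agent.Lib_helper31.MvCartier
import Pool.Agent.Lib_helper31.Deriv
import Pool.Agent.Lib_helper31.Branch

/-!
# The image of `Φ` is stable under the coefficientwise `p⁻¹`-linear map
-/

set_option autoImplicit false

namespace Pool.Agent.Lib_helper31.Branch

open Filter

open PowerSeries (C X coeff mk)

variable (p : ℕ) [hp : Fact p.Prime]

open Classical in
/-- The weight which selects the variables on the branch `f` of level at least `n`. -/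
noncomputable def wt (f : ℕ → Bool) (n : ℕ) : V0 → ZMod p
  | V0.e t => if n ≤ t.length ∧ nd f t.length = t then 1 else 0
  | V0.z => 0
  | V0.tau _ => 0

/-- The Euler derivation, as an additive map. -/
noncomputable def eul (f : ℕ → Bool) (n : ℕ) : A1 p →+ A1 p :=
  (euler p (wt p f n)).toLinearMap.toAddMonoidHom

lemma eul_apply (f : ℕ → Bool) (n : ℕ) (a : A1 p) : eul p f n a = euler p (wt p f n) a := rfl

lemma eul_leibniz (f : ℕ → Bool) (n : ℕ) : Leibniz (eul p f n) := by
  intro a b
  simp only [eul_apply]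
  rw [Derivation.leibniz, smul_eq_mul, smul_eq_mul]
  ring

/-- The coefficientwise Euler derivation. -/
noncomputable def E (f : ℕ → Bool) (n : ℕ) : PowerSeries (A1 p) →+ PowerSeries (A1 p) :=
  psDer (eul p f n)

lemma E_leibniz (f : ℕ → Bool) (n : ℕ) : Leibniz (E p f n) := psDer_leibniz _ (eul_leibniz p f n)

lemma E_Wt (f : ℕ → Bool) (n : ℕ) : E p f n (Wt p f n) = Wt p f n := by
  ext1 k
  rw [E, coeff_psDer, coeff_Wt]
  split_ifs
  · rw [eul_apply, euler_X]
    have : wt p f n (V0.e (nd f (n + k / p))) = 1 := by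
      rw [wt, if_pos]
      rw [length_nd]
      exact ⟨Nat.le_add_right _ _, rfl⟩
    rw [this, one_smul]
  · exact map_zero _

lemma ev_mul (f : ℕ → Bool) {F G : PowerSeries (A1 p)} (hF : ∀ᶠ n in atTop, E p f n F = 0)
    (hG : ∀ᶠ n in atTop, E p f n G = 0) : ∀ᶠ n in atTop, E p f n (F * G) = 0 :=
  (hF.and hG).mono fun n h => (E_leibniz p f n).map_mul_eq_zero h.1 h.2

lemma ev_pow (f : ℕ → Bool) {F : PowerSeries (A1 p)} (hF : ∀ᶠ n in atTop, E p f n F = 0)
    (k : ℕ) : ∀ᶠ n in atTop, E p f n (F ^ k) = 0 :=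
  hF.mono fun n h => (E_leibniz p f n).map_pow_eq_zero h k

lemma ev_add (f : ℕ → Bool) {F G : PowerSeries (A1 p)} (hF : ∀ᶠ n in atTop, E p f n F = 0)
    (hG : ∀ᶠ n in atTop, E p f n G = 0) : ∀ᶠ n in atTop, E p f n (F + G) = 0 :=
  (hF.and hG).mono fun n h => by rw [map_add, h.1, h.2, add_zero]

lemma ev_one (f : ℕ → Bool) : ∀ᶠ n in atTop, E p f n 1 = 0 :=
  Eventually.of_forall fun n => (E_leibniz p f n).map_one

lemma ev_prod (f : ℕ → Bool) {ι : Type*} (s : Finset ι) (F : ι → PowerSeries (A1 p))
    (hF : ∀ i ∈ s, ∀ᶠ n in atTop, E p f n (F i) = 0) :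
    ∀ᶠ n in atTop, E p f n (∏ i ∈ s, F i) = 0 := by
  classical
  induction s using Finset.induction_on with
  | empty => simpa using ev_one p f
  | insert i s hi ih =>
    rw [Finset.prod_insert hi]
    exact ev_mul p f (hF i (Finset.mem_insert_self _ _))
      (ih fun j hj => hF j (Finset.mem_insert_of_mem hj))

lemma E_X (f : ℕ → Bool) (n : ℕ) : E p f n X = 0 := psDer_X _ (eul_leibniz p f n)

lemma ev_CX (f : ℕ → Bool) (v : V0) : ∀ᶠ n in atTop, E p f n (C (MvPolynomial.X v)) = 0 := by
  match v with
  | V0.z =>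
    refine Eventually.of_forall fun n => ?_
    rw [E, psDer_C, eul_apply, euler_X, wt, zero_smul, map_zero]
  | V0.tau g =>
    refine Eventually.of_forall fun n => ?_
    rw [E, psDer_C, eul_apply, euler_X, wt, zero_smul, map_zero]
  | V0.e t =>
    refine (eventually_gt_atTop t.length).mono fun n hn => ?_
    rw [E, psDer_C, eul_apply, euler_X, wt, if_neg, zero_smul, map_zero]
    rintro ⟨h, _⟩
    exact absurd h (not_le.mpr hn)

lemma ev_C (f : ℕ → Bool) (a : A1 p) : ∀ᶠ n in atTop, E p f n (C a) = 0 := by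
  induction a using MvPolynomial.induction_on with
  | C r =>
    refine Eventually.of_forall fun n => ?_
    rw [E, psDer_C, eul_apply]
    have : euler p (wt p f n) (MvPolynomial.C r) = 0 := Derivation.map_algebraMap _ r
    rw [this, map_zero]
  | add a b ha hb => rw [map_add]; exact ev_add p f ha hb
  | mul_X a v ha => rw [map_mul]; exact ev_mul p f ha (ev_CX p f v)

lemma ev_poly (f : ℕ → Bool) (q : Polynomial (A1 p)) :
    ∀ᶠ n in atTop, E p f n (q : PowerSeries (A1 p)) = 0 := by
  induction q using Polynomial.induction_on' with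
  | add a b ha hb => rw [Polynomial.coe_add]; exact ev_add p f ha hb
  | monomial k a =>
    rw [← Polynomial.C_mul_X_pow_eq_monomial, Polynomial.coe_mul, Polynomial.coe_C,
      Polynomial.coe_pow, Polynomial.coe_X]
    exact ev_mul p f (ev_C p f a) (ev_pow p f (Eventually.of_forall fun n => E_X p f n) k)

lemma ev_W {f g : ℕ → Bool} (h : f ≠ g) : ∀ᶠ n in atTop, E p f n (Wt p g 0) = 0 := by
  refine (eventually_nd_ne h).mono fun n hn => ?_
  ext1 k
  rw [E, coeff_psDer, coeff_Wt, map_zero]
  split_ifs
  · rw [eul_apply, euler_X, wt, if_neg, zero_smul]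
    rw [length_nd]
    rintro ⟨h1, h2⟩
    exact hn _ h1 h2
  · exact map_zero _

lemma E_head (f : ℕ → Bool) (n : ℕ) : E p f n (head p f n : PowerSeries (A1 p)) = 0 := by
  rw [head]
  have hcoe : ((∑ m ∈ Finset.range n, Polynomial.C (MvPolynomial.X (V0.e (nd f m))) *
      Polynomial.X ^ (p * m) : Polynomial (A1 p)) : PowerSeries (A1 p)) =
      ∑ m ∈ Finset.range n, C (MvPolynomial.X (V0.e (nd f m))) * X ^ (p * m) := by
    have h := map_sum (Polynomial.coeToPowerSeries.ringHom (R := A1 p))
      (fun m => Polynomial.C (MvPolynomial.X (V0.e (nd f m))) * Polynomial.X ^ (p * m))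
      (Finset.range n)
    rw [Polynomial.coeToPowerSeries.ringHom_apply] at h
    rw [h]
    apply Finset.sum_congr rfl
    intro m _
    rw [map_mul, map_pow]
    simp
  rw [hcoe, map_sum]
  apply Finset.sum_eq_zero
  intro m hm
  apply (E_leibniz p f n).map_mul_eq_zero
  · rw [E, psDer_C, eul_apply, euler_X, wt, if_neg, zero_smul, map_zero]
    rintro ⟨h, _⟩
    rw [length_nd] at h
    exact absurd (Finset.mem_range.mp hm) (not_lt.mpr h)
  · exact (E_leibniz p f n).map_pow_eq_zero (E_X p f n) _

/-- The coefficientwise `p⁻¹`-linear map on power series. -/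
noncomputable def psC : PowerSeries (A1 p) →+ PowerSeries (A1 p) :=
  psCartier p (mvCartier p).toAddMonoidHom

lemma psC_mul (F G : PowerSeries (A1 p)) : psC p (F ^ p * G) = F * psC p G :=
  psCartier_mul p _ (mvCartier_mul p) F G

lemma psC_E (f : ℕ → Bool) (n : ℕ) (F : PowerSeries (A1 p)) : psC p (E p f n F) = 0 := by
  ext1 k
  rw [psC, coeff_psCartier, E, coeff_psDer, map_zero]
  exact mvCartier_euler p _ _

lemma psC_mul_pow_eq_zero (f : ℕ → Bool) (n : ℕ) (G T : PowerSeries (A1 p))
    (hG : E p f n G = 0) (hT : E p f n T = T) (j : ℕ) (hj : 0 < j) (hjp : j < p) :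
    psC p (G * T ^ j) = 0 := by
  have h1 : E p f n (G * T ^ j) = j • (G * T ^ j) := by
    rw [E_leibniz p f n, hG, zero_mul, zero_add, (E_leibniz p f n).map_pow, hT, mul_assoc,
      ← pow_succ, Nat.sub_add_cancel hj, nsmul_eq_mul]
    ring
  have h2 := psC_E p f n (G * T ^ j)
  rw [h1, map_nsmul, nsmul_eq_mul] at h2
  rcases mul_eq_zero.mp h2 with h | h
  · exfalso
    have h3 : ((j : ℕ) : A1 p) = 0 := by
      have := congrArg (coeff 0) h
      simpa using this
    have h4 : p ∣ j := (CharP.cast_eq_zero_iff (A1 p) p j).mp h3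
    exact absurd (Nat.le_of_dvd hj h4) (not_le.mpr hjp)
  · exact h

lemma psC_expand (f : ℕ → Bool) (n : ℕ) (G h c T : PowerSeries (A1 p))
    (hG : E p f n G = 0) (hh : E p f n h = 0) (hc : E p f n c = 0) (hT : E p f n T = T)
    (b : ℕ) (hb : b < p) : psC p (G * (h + c * T) ^ b) = psC p (G * h ^ b) := by
  rw [add_pow, Finset.mul_sum, map_sum, Finset.sum_range_succ]
  have h0 : ∑ m ∈ Finset.range b, psC p (G * (h ^ m * (c * T) ^ (b - m) * (b.choose m : ℕ))) = 0 := by
    apply Finset.sum_eq_zero
    intro m hm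
    rw [Finset.mem_range] at hm
    have e : G * (h ^ m * (c * T) ^ (b - m) * ((b.choose m : ℕ) : PowerSeries (A1 p))) =
        (b.choose m) • ((G * h ^ m * c ^ (b - m)) * T ^ (b - m)) := by
      rw [nsmul_eq_mul, mul_pow]; ring
    rw [e, map_nsmul, psC_mul_pow_eq_zero p f n _ T _ hT (b - m) (by omega) (by omega), smul_zero]
    apply (E_leibniz p f n).map_mul_eq_zero
    · exact (E_leibniz p f n).map_mul_eq_zero hG ((E_leibniz p f n).map_pow_eq_zero hh m)
    · exact (E_leibniz p f n).map_pow_eq_zero hc _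
  rw [h0, zero_add, Nat.sub_self, pow_zero, mul_one, Nat.choose_self, Nat.cast_one, mul_one]

lemma psC_poly (q : Polynomial (A1 p)) :
    ∃ r : Polynomial (A1 p), psC p (q : PowerSeries (A1 p)) = r := by
  refine ⟨polyCartier p hp.out.ne_zero (mvCartier p).toAddMonoidHom q, ?_⟩
  ext1 k
  rw [psC, coeff_psCartier, Polynomial.coeff_coe, Polynomial.coeff_coe, coeff_polyCartier]

theorem psC_prod (s : Finset VA) (b : VA → ℕ) (hb : ∀ v ∈ s, b v < p) :
    ∀ q : Polynomial (A1 p), ∃ r : Polynomial (A1 p),
      psC p ((q : PowerSeries (A1 p)) * ∏ v ∈ s, phiVar p v ^ b v) = r := by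
  classical
  induction s using Finset.induction_on with
  | empty => intro q; simpa using psC_poly p q
  | insert v s hv ih =>
    intro q
    have ih' := ih fun v' hv' => hb v' (Finset.mem_insert_of_mem hv')
    rw [Finset.prod_insert hv]
    match v, hv, hb with
    | VA.c v, hv, hb =>
      obtain ⟨r, hr⟩ := ih' (q * (Polynomial.C (MvPolynomial.X v)) ^ b (VA.c v))
      refine ⟨r, ?_⟩
      rw [← hr, ← mul_assoc]
      simp only [phiVar, Polynomial.coe_mul, Polynomial.coe_pow, Polynomial.coe_C]
    | VA.x, hv, hb =>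
      obtain ⟨r, hr⟩ := ih' (q * Polynomial.X ^ b VA.x)
      refine ⟨r, ?_⟩
      rw [← hr, ← mul_assoc]
      simp only [phiVar, Polynomial.coe_mul, Polynomial.coe_pow, Polynomial.coe_X]
    | VA.w f, hv, hb =>
      have h1 : ∀ᶠ n in atTop, E p f n ((q : PowerSeries (A1 p)) *
          ∏ v ∈ s, phiVar p v ^ b v) = 0 := by
        apply ev_mul p f (ev_poly p f q)
        apply ev_prod
        intro v' hv'
        apply ev_pow
        match v', hv' with
        | VA.c v, _ => exact ev_CX p f v
        | VA.x, _ => exact Eventually.of_forall fun n => E_X p f n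
        | VA.w g, hv' =>
          apply ev_W
          rintro rfl
          exact hv hv'
      obtain ⟨n, hn⟩ := h1.exists
      obtain ⟨r, hr⟩ := ih' (q * head p f n ^ b (VA.w f))
      refine ⟨r, ?_⟩
      rw [← hr]
      have e1 : (q : PowerSeries (A1 p)) * (phiVar p (VA.w f) ^ b (VA.w f) *
          ∏ v ∈ s, phiVar p v ^ b v) = ((q : PowerSeries (A1 p)) * ∏ v ∈ s, phiVar p v ^ b v) *
            ((head p f n : PowerSeries (A1 p)) + X ^ (p * n) * Wt p f n) ^ b (VA.w f) := by
        rw [← Wt_zero_eq]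
        simp only [phiVar]
        ring
      rw [e1, psC_expand p f n _ _ _ _ hn (E_head p f n)
        ((E_leibniz p f n).map_pow_eq_zero (E_X p f n) _) (E_Wt p f n) _
        (hb _ (Finset.mem_insert_self _ _))]
      congr 1
      simp only [Polynomial.coe_mul, Polynomial.coe_pow]
      ring

/-- Polynomials are in the image of `Φ`. -/
lemma exists_Phi_poly (r : Polynomial (A1 p)) : ∃ a : A p, Phi p a = r := by
  let j : Polynomial (A1 p) →+* A p :=
    Polynomial.eval₂RingHom (MvPolynomial.rename VA.c).toRingHom (MvPolynomial.X VA.x)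
  refine ⟨j r, ?_⟩
  have : (Phi p).toRingHom.comp j = Polynomial.coeToPowerSeries.ringHom := by
    apply Polynomial.ringHom_ext
    · intro a
      change Phi p (j (Polynomial.C a)) = ((Polynomial.C a : Polynomial (A1 p)) : PowerSeries (A1 p))
      rw [Polynomial.coe_C]
      simp only [j, Polynomial.coe_eval₂RingHom, Polynomial.eval₂_C]
      change Phi p (MvPolynomial.rename VA.c a) = C a
      induction a using MvPolynomial.induction_on with
      | C r =>
        rw [MvPolynomial.rename_C]
        have := Subsingleton.elim ((Phi p).toRingHom.comp MvPolynomial.C)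
          ((C : A1 p →+* PowerSeries (A1 p)).comp MvPolynomial.C)
        exact RingHom.congr_fun this r
      | add a b ha hb => rw [map_add, map_add, ha, hb, map_add]
      | mul_X a v ha =>
        rw [map_mul, map_mul, ha, MvPolynomial.rename_X, Phi_X, map_mul]
        rfl
    · change Phi p (j Polynomial.X) = ((Polynomial.X : Polynomial (A1 p)) : PowerSeries (A1 p))
      rw [Polynomial.coe_X]
      simp only [j, Polynomial.coe_eval₂RingHom, Polynomial.eval₂_X]
      rw [Phi_X]
      rfl
  exact congrArg (fun g => g r) this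

/-- The image of `Φ` is stable under the coefficientwise `p⁻¹`-linear map. -/
theorem psC_Phi (a : A p) : ∃ b : A p, psC p (Phi p a) = Phi p b := by
  induction a using MvPolynomial.induction_on' with
  | add a b ha hb =>
    obtain ⟨a', ha'⟩ := ha
    obtain ⟨b', hb'⟩ := hb
    exact ⟨a' + b', by rw [map_add, map_add, ha', hb', map_add]⟩
  | monomial α c =>
    let α' : VA →₀ ℕ := α.mapRange (· / p) (Nat.zero_div p)
    let β : VA →₀ ℕ := α.mapRange (· % p) (Nat.zero_mod p)
    have hα : α = p • α' + β := by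
      ext v
      simp only [α', β, Finsupp.add_apply, Finsupp.smul_apply, Finsupp.mapRange_apply, smul_eq_mul]
      exact (Nat.div_add_mod _ _).symm
    have h1 : (MvPolynomial.monomial α c : A p) =
        (MvPolynomial.monomial α' 1) ^ p * MvPolynomial.monomial β c := by
      rw [MvPolynomial.monomial_pow, MvPolynomial.monomial_mul, ← hα, one_pow, one_mul]
    have h2 : Phi p (MvPolynomial.monomial β c) =
        ((Polynomial.C (algebraMap (ZMod p) (A1 p) c) : Polynomial (A1 p)) : PowerSeries (A1 p)) *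
          ∏ v ∈ β.support, phiVar p v ^ β v := by
      rw [Phi, MvPolynomial.aeval_monomial, Polynomial.coe_C]
      have h3 : algebraMap (ZMod p) (PowerSeries (A1 p)) =
          (C : A1 p →+* PowerSeries (A1 p)).comp (algebraMap (ZMod p) (A1 p)) :=
        Subsingleton.elim _ _
      rw [h3]
      rfl
    obtain ⟨r, hr⟩ := psC_prod p β.support β (fun v _ => Nat.mod_lt _ hp.out.pos)
      (Polynomial.C (algebraMap (ZMod p) (A1 p) c))
    obtain ⟨b, hb⟩ := exists_Phi_poly p r
    refine ⟨MvPolynomial.monomial α' 1 * b, ?_⟩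
    rw [h1, map_mul, map_pow, psC_mul, h2, hr, map_mul, hb]

end Pool.Agent.Lib_helper31.Branch
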