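import Mathlib

/-!
# Pulling back a power series ring over a field to a field
-/

set_option autoImplicit false

namespace Pool.Agent.Lib_helper31.Pull

open PowerSeries

variable {K L Q : Type} [Field K] [Field L] [Field Q] [Algebra K⟦X⟧ Q] [IsFractionRing K⟦X⟧ Q]
  (T : L →+* Q)

/-- The elements of `L` whose image is a power series. -/
noncomputable def V : Subring L := (algebraMap K⟦X⟧ Q).range.comap T

lemma mem_V {l : L} : l ∈ V (K := K) T ↔ ∃ F : K⟦X⟧, algebraMap K⟦X⟧ Q F = T l := Iff.rfl

lemma inj : Function.Injective (algebraMap K⟦X⟧ Q) := IsFractionRing.injective _ _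

/-- The power series attached to an element of `V`. -/
noncomputable def th : V (K := K) T →+* K⟦X⟧ where
  toFun l := (mem_V T).mp l.2 |>.choose
  map_one' := by
    apply inj (Q := Q)
    rw [((mem_V T).mp (1 : V (K := K) T).2).choose_spec, map_one]
    exact map_one T
  map_mul' a b := by
    apply inj (Q := Q)
    rw [((mem_V T).mp (a * b).2).choose_spec, map_mul, ((mem_V T).mp a.2).choose_spec,
      ((mem_V T).mp b.2).choose_spec]
    exact map_mul T _ _
  map_zero' := by
    apply inj (Q := Q)
    rw [((mem_V T).mp (0 : V (K := K) T).2).choose_spec, map_zero]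
    exact map_zero T
  map_add' a b := by
    apply inj (Q := Q)
    rw [((mem_V T).mp (a + b).2).choose_spec, map_add, ((mem_V T).mp a.2).choose_spec,
      ((mem_V T).mp b.2).choose_spec]
    exact map_add T _ _

lemma th_spec (l : V (K := K) T) : algebraMap K⟦X⟧ Q (th T l) = T l :=
  ((mem_V T).mp l.2).choose_spec

lemma th_eq {l : V (K := K) T} {F : K⟦X⟧} (h : algebraMap K⟦X⟧ Q F = T l) : th T l = F := by
  apply inj (Q := Q)
  rw [th_spec, h]

lemma th_injective : Function.Injective (th (K := K) T) := by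
  intro a b h
  apply Subtype.ext
  apply T.injective
  rw [← th_spec, h, th_spec]

lemma inv_mem {l : L} (F : K⟦X⟧) (hF : algebraMap K⟦X⟧ Q F = T l)
    (h0 : constantCoeff F ≠ 0) : l⁻¹ ∈ V (K := K) T := by
  refine ⟨F⁻¹, ?_⟩
  rw [map_inv₀, ← hF]
  apply eq_inv_of_mul_eq_one_left
  rw [← map_mul, PowerSeries.inv_mul_cancel _ h0, map_one]

lemma isUnit_of_coeff (v : V (K := K) T) (h0 : constantCoeff (th T v) ≠ 0) : IsUnit v := by
  have hv : (v : L) ≠ 0 := by
    intro h
    have : v = 0 := Subtype.ext h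
    rw [this, map_zero, map_zero] at h0
    exact h0 rfl
  refine IsUnit.of_mul_eq_one ⟨(v : L)⁻¹, inv_mem T _ (th_spec T v) h0⟩ ?_
  apply Subtype.ext
  exact mul_inv_cancel₀ hv

variable (x : L) (hx : T x = algebraMap K⟦X⟧ Q X)

include hx

lemma x_mem : x ∈ V (K := K) T := ⟨X, hx.symm⟩

lemma th_x : th T ⟨x, x_mem T x hx⟩ = X := th_eq T hx.symm

lemma x_ne : x ≠ 0 := by
  rintro rfl
  rw [map_zero] at hx
  have := inj (Q := Q) (hx.symm.trans (map_zero _).symm)
  exact X_ne_zero this

lemma exists_pow (l : L) : ∃ n : ℕ, x ^ n * l ∈ V (K := K) T := by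
  obtain ⟨F, G, hG, h⟩ := IsFractionRing.div_surjective (A := K⟦X⟧) (T l)
  have hG0 : G ≠ 0 := nonZeroDivisors.ne_zero hG
  let G' := divXPowOrder G
  have hG' : X ^ G.order.toNat * G' = G := X_pow_order_mul_divXPowOrder
  have hG'0 : constantCoeff G' ≠ 0 := by
    intro h
    exact hG0 (constantCoeff_divXPowOrder_eq_zero_iff.mp h)
  refine ⟨G.order.toNat, F * G'⁻¹, ?_⟩
  have hGL : algebraMap K⟦X⟧ Q G ≠ 0 := fun h =>
    hG0 (inj (Q := Q) (h.trans (map_zero _).symm))
  rw [map_mul, map_mul, map_pow, hx, ← h]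
  have e1 : G * G'⁻¹ = X ^ G.order.toNat := by
    conv_lhs => rw [← hG']
    rw [mul_assoc, PowerSeries.mul_inv_cancel _ hG'0, mul_one]
  rw [← map_pow, ← e1, map_mul]
  field_simp

lemma sep (l : L) (h : ∀ n : ℕ, ∃ v ∈ V (K := K) T, l = x ^ n * v) : l = 0 := by
  obtain ⟨v, hv, hlv⟩ := h 0
  rw [pow_zero, one_mul] at hlv
  subst hlv
  have h0 : th T ⟨l, hv⟩ = 0 := by
    ext k
    obtain ⟨v, hv', hlv⟩ := h (k + 1)
    have h1 : (⟨l, hv⟩ : V (K := K) T) = ⟨x, x_mem T x hx⟩ ^ (k + 1) * ⟨v, hv'⟩ :=
      Subtype.ext hlv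
    rw [h1, map_mul, map_pow, th_x T x hx, coeff_X_pow_mul', if_neg (by omega)]
    simp
  have := th_injective T (h0.trans (map_zero _).symm)
  exact congrArg Subtype.val this

theorem noeth : IsNoetherianRing (V (K := K) T) := by
  let xV : V (K := K) T := ⟨x, x_mem T x hx⟩
  have hxV : th T xV = X := th_x T x hx
  have hirr : Irreducible xV := by
    constructor
    · intro h
      have := h.map (th T)
      rw [hxV] at this
      have h2 := this.map (constantCoeff (R := K))
      simp at h2
    · intro a b hab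
      have h1 : X = th T a * th T b := by rw [← map_mul, ← hab, hxV]
      have h2 : (X : K⟦X⟧) ∣ th T a * th T b := by rw [← h1]
      rcases X_prime.dvd_or_dvd h2 with h | h
      · right
        apply isUnit_of_coeff
        obtain ⟨c, hc⟩ := h
        intro hb
        have h3 : (X : K⟦X⟧) * 1 = X * (c * th T b) := by
          rw [mul_one, ← mul_assoc, ← hc, ← h1]
        have h4 := mul_left_cancel₀ X_ne_zero h3
        have h5 := congrArg (constantCoeff (R := K)) h4
        rw [map_mul, hb, mul_zero, map_one] at h5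
        exact one_ne_zero h5
      · left
        apply isUnit_of_coeff
        obtain ⟨c, hc⟩ := h
        intro ha
        have h3 : (X : K⟦X⟧) * 1 = X * (th T a * c) := by
          rw [mul_one, mul_left_comm, ← hc, ← h1]
        have h4 := mul_left_cancel₀ X_ne_zero h3
        have h5 := congrArg (constantCoeff (R := K)) h4
        rw [map_mul, ha, zero_mul, map_one] at h5
        exact one_ne_zero h5
  have hfac : IsDiscreteValuationRing.HasUnitMulPowIrreducibleFactorization (V (K := K) T) := by
    refine ⟨xV, hirr, ?_⟩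
    intro v hv
    have hF0 : th T v ≠ 0 := fun h => hv (th_injective T (h.trans (map_zero _).symm))
    let G := divXPowOrder (th T v)
    set n := (th T v).order.toNat with hn
    have hG : th T v = X ^ n * G := X_pow_order_mul_divXPowOrder.symm
    have hG0 : constantCoeff G ≠ 0 := by
      intro h
      exact hF0 (constantCoeff_divXPowOrder_eq_zero_iff.mp h)
    have hxn : x ^ n ≠ 0 := pow_ne_zero _ (x_ne T x hx)
    have hu : algebraMap K⟦X⟧ Q G = T ((v : L) / x ^ n) := by
      rw [map_div₀, ← th_spec, hG, map_mul, map_pow, map_pow, hx]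
      rw [mul_div_cancel_left₀]
      rw [← hx]
      exact pow_ne_zero _ ((map_ne_zero T).mpr (x_ne T x hx))
    let u : V (K := K) T := ⟨(v : L) / x ^ n, G, hu⟩
    have hu1 : IsUnit u := isUnit_of_coeff T u (by rw [th_eq T (l := u) hu]; exact hG0)
    obtain ⟨u', hu'⟩ := hu1
    refine ⟨n, u', ?_⟩
    rw [hu']
    apply Subtype.ext
    change x ^ n * ((v : L) / x ^ n) = v
    exact mul_div_cancel₀ _ hxn
  have := IsDiscreteValuationRing.ofHasUnitMulPowIrreducibleFactorization hfac
  infer_instance

end Pool.Agent.Lib_helper31.Pull
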