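import Mathlib

/-!
# The perfect closure as a solid algebra, the evaluation ideal, Frobenius splittings

The statement-level definitions for problem MP_45223c_al.
-/

set_option autoImplicit false

namespace Pool.Agent.Lib_helper31

section Defs

variable (R : Type) [CommRing R] (p : ℕ) [Fact p.Prime] [CharP R p]

/-- The perfect closure `R_perf`, the colimit of `R → R → ⋯` along the Frobenius
(`PerfectClosure R p` in Mathlib), is a solid `R`-algebra: there is a nonzero `R`-linear map
`R_perf → R`, for the `R`-algebra structure given by the canonical map `PerfectClosure.of`. -/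
def PerfIsSolid : Prop :=
  letI : Algebra R (PerfectClosure R p) := (PerfectClosure.of R p).toAlgebra
  ∃ φ : PerfectClosure R p →ₗ[R] R, φ ≠ 0

/-- The evaluation ideal of `R_perf` over `R`: the image of
`Hom_R (R_perf, R) → R, φ ↦ φ 1`. -/
noncomputable def evalIdeal : Ideal R :=
  letI : Algebra R (PerfectClosure R p) := (PerfectClosure.of R p).toAlgebra
  LinearMap.range
    (LinearMap.applyₗ (1 : PerfectClosure R p) : (PerfectClosure R p →ₗ[R] R) →ₗ[R] R)

/-- `R` (of characteristic `p`) is Frobenius split: the Frobenius map `R → F_* R` has an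
`R`-linear left inverse, i.e. there is an additive map `σ : R → R` with
`σ (r ^ p * x) = r * σ x` and `σ (r ^ p) = r`. -/
def FrobeniusSplit (R : Type) [CommRing R] (p : ℕ) : Prop :=
  ∃ σ : R →+ R, (∀ r x : R, σ (r ^ p * x) = r * σ x) ∧ ∀ r : R, σ (r ^ p) = r

end Defs

/-- A family of additive maps `lam n : R → R`, thought of as the restrictions of an `R`-linear
map `R_perf → R` to `R ^ (1 / p ^ n)`, glues to an `R`-linear map on the perfect closure. -/
theorem exists_perf_linear (R : Type) [CommRing R] (p : ℕ) [Fact p.Prime] [CharP R p]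
    (lam : ℕ → R →+ R) (h1 : ∀ n x, lam (n + 1) (x ^ p) = lam n x)
    (h2 : ∀ n a x, lam n (a ^ p ^ n * x) = a * lam n x) :
    letI : Algebra R (PerfectClosure R p) := (PerfectClosure.of R p).toAlgebra
    ∃ φ : PerfectClosure R p →ₗ[R] R, ∀ n x, φ (PerfectClosure.mk R p (n, x)) = lam n x := by
  letI : Algebra R (PerfectClosure R p) := (PerfectClosure.of R p).toAlgebra
  have hit : ∀ n m x, lam (n + m) ((frobenius R p)^[m] x) = lam n x := by
    intro n m
    induction m with
    | zero => intro x; rfl
    | succ m ih =>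
      intro x
      rw [Function.iterate_succ_apply', ← add_assoc, frobenius_def, h1, ih]
  have hR : ∀ x y : ℕ × R, PerfectClosure.R R p x y → lam x.1 x.2 = lam y.1 y.2 := by
    rintro _ _ ⟨n, x⟩
    exact (h1 n x).symm
  let f : PerfectClosure R p → R := fun x => PerfectClosure.liftOn x (fun y => lam y.1 y.2) hR
  have hf : ∀ n x, f (PerfectClosure.mk R p (n, x)) = lam n x := fun n x => rfl
  refine ⟨{ toFun := f, map_add' := ?_, map_smul' := ?_ }, hf⟩
  · intro x y
    obtain ⟨⟨n, x⟩, rfl⟩ := PerfectClosure.mk_surjective R p x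
    obtain ⟨⟨m, y⟩, rfl⟩ := PerfectClosure.mk_surjective R p y
    rw [PerfectClosure.mk_add_mk, hf, hf, hf, map_add]
    simp only
    rw [hit n m x, add_comm n m, hit m n y]
  · intro a x
    obtain ⟨⟨n, x⟩, rfl⟩ := PerfectClosure.mk_surjective R p x
    rw [Algebra.smul_def]
    change f (PerfectClosure.of R p a * PerfectClosure.mk R p (n, x)) = a * f _
    rw [PerfectClosure.of_apply, PerfectClosure.mk_mul_mk, hf, hf]
    simp only
    rw [Function.iterate_zero, id, zero_add, iterate_frobenius, h2]

/-- An `R`-linear map on the perfect closure restricts to a `p⁻¹`-linear map on `R`. -/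
theorem perf_restrict (R : Type) [CommRing R] (p : ℕ) [Fact p.Prime] [CharP R p] (r : R)
    (hr : r ∈ evalIdeal R p) :
    ∃ φ : R →+ R, (∀ a x, φ (a ^ p * x) = a * φ x) ∧ φ 1 = r := by
  letI : Algebra R (PerfectClosure R p) := (PerfectClosure.of R p).toAlgebra
  obtain ⟨φ, rfl⟩ := hr
  refine ⟨{ toFun := fun x => φ (PerfectClosure.mk R p (1, x)), map_zero' := ?_,
            map_add' := ?_ }, ?_, ?_⟩
  · rw [PerfectClosure.mk_zero_right, map_zero]
  · intro x y
    rw [← map_add, PerfectClosure.mk_add_mk]
    congr 1
    simp only [Function.iterate_one]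
    have := PerfectClosure.mk_succ_pow R p 1 (x + y)
    rw [← this, add_pow_char]
    rfl
  · intro a x
    have : PerfectClosure.mk R p (1, a ^ p * x) = a • PerfectClosure.mk R p (1, x) := by
      rw [Algebra.smul_def]
      change _ = PerfectClosure.of R p a * PerfectClosure.mk R p (1, x)
      rw [PerfectClosure.of_apply, PerfectClosure.mk_mul_mk]
      rfl
    change φ (PerfectClosure.mk R p (1, a ^ p * x)) = a * φ _
    rw [this, map_smul, smul_eq_mul]
  · change φ (PerfectClosure.mk R p (1, 1)) = φ 1
    congr 1
    have := PerfectClosure.mk_succ_pow R p 0 (1 : R)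
    rw [one_pow] at this
    rw [PerfectClosure.one_def, ← this]

end Pool.Agent.Lib_helper31
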