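import Mathlib
import Pool.Agent.Lib_helper31.Cartier
import Pool.Agent.Lib_helper31.PerfDefs

/-!
# The abstract construction

From a discrete-valuation-like subring `V` of a field `L` with a wild automorphism `s` of `L` we
construct a Noetherian domain `R` of characteristic `p` with a prime which contains the evaluation
ideal but at which `R` is Frobenius split.
-/

set_option autoImplicit false

namespace Pool.Agent.Lib_helper31

open Polynomial

/-- The data used in the construction. -/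
structure WildData (p : ℕ) (L : Type) [Field L] where
  V : Subring L
  noeth : IsNoetherianRing V
  x : L
  x_mem : x ∈ V
  x_ne : x ≠ 0
  exists_pow : ∀ l : L, ∃ n : ℕ, x ^ n * l ∈ V
  sep : ∀ l : L, (∀ n : ℕ, ∃ v ∈ V, l = x ^ n * v) → l = 0
  z : L
  z_mem : z ∈ V
  z_ne : z ≠ 0
  zinv_mem : z⁻¹ ∈ V
  z1_ne : z - 1 ≠ 0
  z1inv_mem : (z - 1)⁻¹ ∈ V
  s : L ≃+* L
  s_x : s x = x
  s_z : s z = z
  I : Type
  T : Type
  uncountable : Uncountable I
  countable : Countable T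
  d : I → L →+ L
  d_mul : ∀ i a b, d i (a * b) = d i a * b + a * d i b
  d_x : ∀ i, d i x = 0
  d_z : ∀ i, d i z = 0
  d_s : ∀ i l, d i (s l) = s (d i l)
  d_mem : ∀ i, ∀ l ∈ V, d i l ∈ V
  d_fin : ∀ l, {i | d i l ≠ 0}.Finite
  tau : I → L
  tau_mem : ∀ i, tau i ∈ V
  d_tau : ∀ i, d i (tau i) = 1
  w : I → L
  w_mem : ∀ i, w i ∈ V
  s_w : ∀ i, s (w i) = w i + tau i ^ p * z
  e : T → L
  e_mem : ∀ t, e t ∈ V
  r : I → ℕ → T
  tail : ∀ i M, ∃ v ∈ V, w i = ∑ m ∈ Finset.range M, x ^ (p * m) * e (r i m) + x ^ (p * M) * v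
  κ : V →+ V
  κ_mul : ∀ a b, κ (a ^ p * b) = a * κ b
  κ_one : κ 1 = 1

namespace WildData

variable {p : ℕ} {L : Type} [Field L] (D : WildData p L)

/-- Evaluation at `y = 1 / x`. -/
noncomputable def ev1 : D.V[X] →+* L := eval₂RingHom D.V.subtype D.x⁻¹

/-- Evaluation at `y = z / x`. -/
noncomputable def ev2 : D.V[X] →+* L := eval₂RingHom D.V.subtype (D.z * D.x⁻¹)

/-- The ring `R`. -/
noncomputable def R : Subring D.V[X] := RingHom.eqLocus (D.s.toRingHom.comp D.ev1) D.ev2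

lemma mem_R {f : D.V[X]} : f ∈ D.R ↔ D.s (D.ev1 f) = D.ev2 f := Iff.rfl

/-- `x` as an element of `V`. -/
def xV : D.V := ⟨D.x, D.x_mem⟩

/-- `z` as an element of `V`. -/
def zV : D.V := ⟨D.z, D.z_mem⟩

@[simp] lemma coe_xV : (D.xV : L) = D.x := rfl
@[simp] lemma coe_zV : (D.zV : L) = D.z := rfl

/-- The polynomial `x y - 1`. -/
noncomputable def g1 : D.V[X] := C D.xV * X - 1

/-- The polynomial `x y - z`. -/
noncomputable def g2 : D.V[X] := C D.xV * X - C D.zV

@[simp] lemma ev1_C (a : D.V) : D.ev1 (C a) = (a : L) := by simp [ev1]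
@[simp] lemma ev2_C (a : D.V) : D.ev2 (C a) = (a : L) := by simp [ev2]
@[simp] lemma ev1_X : D.ev1 X = D.x⁻¹ := by simp [ev1]
@[simp] lemma ev2_X : D.ev2 X = D.z * D.x⁻¹ := by simp [ev2]

lemma ev1_g1 : D.ev1 D.g1 = 0 := by
  simp [g1, D.x_ne]

lemma ev2_g1 : D.ev2 D.g1 = D.z - 1 := by
  have := D.x_ne
  simp only [g1, map_sub, map_mul, ev2_C, ev2_X, map_one, coe_xV]
  field_simp

lemma ev2_g2 : D.ev2 D.g2 = 0 := by
  have := D.x_ne
  simp only [g2, map_sub, map_mul, ev2_C, ev2_X, coe_xV, coe_zV]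
  field_simp
  ring

/-- `(z - 1)⁻¹` as an element of `V`. -/
noncomputable def uV : D.V := ⟨(D.z - 1)⁻¹, D.z1inv_mem⟩

/-- The element `η` with `η (1 / x) = 0` and `η (z / x) = 1`. -/
noncomputable def eta : D.V[X] := C D.uV * D.g1

lemma ev1_eta : D.ev1 D.eta = 0 := by
  rw [eta, map_mul, ev1_g1, mul_zero]

lemma ev2_eta : D.ev2 D.eta = 1 := by
  rw [eta, map_mul, ev2_g1, ev2_C]
  exact inv_mul_cancel₀ D.z1_ne

/-- Descent of a factorisation from `L[y]` to `V[y]`. -/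
lemma descend (c : L) (hc : c ≠ 0) (hcV : c⁻¹ ∈ D.V) (f : D.V[X]) (h : L[X])
    (hf : f.map D.V.subtype = (C D.x * X - C c) * h) : ∀ n, h.coeff n ∈ D.V := by
  intro n
  induction n with
  | zero =>
    have := congrArg (fun q => coeff q 0) hf
    simp only [coeff_map, sub_mul, coeff_sub, mul_assoc, coeff_C_mul, coeff_X_mul_zero,
      mul_zero, zero_sub] at this
    have e : h.coeff 0 = -(c⁻¹ * D.V.subtype (f.coeff 0)) := by
      rw [this]; field_simp
    rw [e]
    exact D.V.neg_mem (D.V.mul_mem hcV (f.coeff 0).2)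
  | succ n ih =>
    have := congrArg (fun q => coeff q (n + 1)) hf
    simp only [coeff_map, sub_mul, coeff_sub, mul_assoc, coeff_C_mul, coeff_X_mul] at this
    have e : h.coeff (n + 1) = c⁻¹ * (D.x * h.coeff n - D.V.subtype (f.coeff (n + 1))) := by
      rw [this]; field_simp; ring
    rw [e]
    exact D.V.mul_mem hcV (D.V.sub_mem (D.V.mul_mem D.x_mem ih) (f.coeff (n + 1)).2)

/-- The general divisibility statement. -/
lemma dvd_of_eval (c : D.V) (hc : (c : L) ≠ 0) (hcV : (c : L)⁻¹ ∈ D.V) (f : D.V[X])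
    (hf : eval₂ D.V.subtype ((c : L) * D.x⁻¹) f = 0) : (C D.xV * X - C c) ∣ f := by
  have hroot : (f.map D.V.subtype).IsRoot ((c : L) * D.x⁻¹) := by
    rw [IsRoot.def, eval_map]; exact hf
  obtain ⟨h, hh⟩ := dvd_iff_isRoot.mpr hroot
  have hh' : f.map D.V.subtype = (C D.x * X - C (c : L)) * (C D.x⁻¹ * h) := by
    rw [hh, ← mul_assoc]
    congr 1
    rw [sub_mul, mul_right_comm, ← C_mul, mul_inv_cancel₀ D.x_ne, ← C_mul]
    simp
  have hcoef := D.descend c hc hcV f _ hh'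
  have hlift : (C D.x⁻¹ * h) ∈ Polynomial.lifts D.V.subtype := by
    rw [Polynomial.lifts_iff_coeff_lifts]
    intro n
    exact ⟨⟨_, hcoef n⟩, rfl⟩
  obtain ⟨q, hq⟩ := (Polynomial.mem_lifts _).mp hlift
  refine ⟨q, ?_⟩
  apply Polynomial.map_injective D.V.subtype Subtype.val_injective
  rw [hh', ← hq]
  simp [Polynomial.map_mul, Polynomial.map_sub]

lemma g1_dvd {f : D.V[X]} (hf : D.ev1 f = 0) : D.g1 ∣ f := by
  have := D.dvd_of_eval 1 (by simp) (by simp [D.V.one_mem]) f (by simpa [ev1] using hf)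
  simpa [g1] using this

lemma g2_dvd {f : D.V[X]} (hf : D.ev2 f = 0) : D.g2 ∣ f :=
  D.dvd_of_eval D.zV D.z_ne D.zinv_mem f hf

/-- The element `g = (x y - 1) (x y - z)`. -/
noncomputable def g : D.V[X] := D.g1 * D.g2

lemma ev1_g : D.ev1 D.g = 0 := by rw [g, map_mul, ev1_g1, zero_mul]

lemma ev2_g : D.ev2 D.g = 0 := by rw [g, map_mul, ev2_g2, mul_zero]

lemma g_dvd {f : D.V[X]} (h1 : D.ev1 f = 0) (h2 : D.ev2 f = 0) : D.g ∣ f := by
  obtain ⟨h, rfl⟩ := D.g1_dvd h1
  rw [map_mul, ev2_g1] at h2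
  have h3 : D.ev2 h = 0 := by
    rcases mul_eq_zero.mp h2 with h | h
    · exact absurd h D.z1_ne
    · exact h
  obtain ⟨k, rfl⟩ := D.g2_dvd h3
  exact ⟨k, by rw [g]; ring⟩

lemma g_mul_mem (f : D.V[X]) : D.g * f ∈ D.R := by
  rw [mem_R, map_mul D.ev1, map_mul D.ev2, ev1_g, ev2_g, zero_mul, zero_mul, map_zero]

lemma g_mem : D.g ∈ D.R := by simpa using D.g_mul_mem 1

lemma g1_ne : D.g1 ≠ 0 := by
  intro h
  have := D.ev2_g1
  rw [h, map_zero] at this
  exact D.z1_ne this.symm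

lemma g2_ne : D.g2 ≠ 0 := by
  intro h
  have := congrArg (fun q => coeff q 0) h
  simp only [g2, coeff_sub, coeff_C_mul, coeff_X_zero, mul_zero, coeff_C_zero, zero_sub,
    coeff_zero, neg_eq_zero] at this
  exact D.z_ne (congrArg Subtype.val this)

lemma g_ne : D.g ≠ 0 := mul_ne_zero D.g1_ne D.g2_ne

/-- Every `p⁻¹`-linear map of `R` extends to `V[y]`. -/
lemma exists_extension (hp : 0 < p) (φ : D.R →+ D.R) (hφ : ∀ a b, φ (a ^ p * b) = a * φ b) :
    ∃ φ' : D.V[X] →+ D.V[X], (∀ a b, φ' (a ^ p * b) = a * φ' b) ∧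
      ∀ h : D.R, φ' (h : D.V[X]) = (φ h : D.V[X]) := by
  have hpp : D.g ^ p = D.g * D.g ^ (p - 1) := by
    rw [← pow_succ', Nat.sub_add_cancel hp]
  have hmem : ∀ h : D.V[X], D.g ^ p * h ∈ D.R := by
    intro h
    rw [hpp, mul_assoc]
    exact D.g_mul_mem _
  let ψ : D.V[X] → D.V[X] := fun h => (φ ⟨D.g ^ p * h, hmem h⟩ : D.V[X])
  have hψR : ∀ h, ψ h ∈ D.R := fun h => (φ ⟨D.g ^ p * h, hmem h⟩).2
  have hψ_add : ∀ a b, ψ (a + b) = ψ a + ψ b := by
    intro a b
    have : (⟨D.g ^ p * (a + b), hmem (a + b)⟩ : D.R) =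
        ⟨D.g ^ p * a, hmem a⟩ + ⟨D.g ^ p * b, hmem b⟩ := by
      apply Subtype.ext
      change D.g ^ p * (a + b) = D.g ^ p * a + D.g ^ p * b
      ring
    change ((φ ⟨D.g ^ p * (a + b), hmem (a + b)⟩ : D.R) : D.V[X]) = _
    rw [this, map_add]
    rfl
  -- elements of `R` come out
  have hψ_R : ∀ (a : D.R) (b : D.V[X]), ψ ((a : D.V[X]) ^ p * b) = (a : D.V[X]) * ψ b := by
    intro a b
    have : (⟨D.g ^ p * ((a : D.V[X]) ^ p * b), hmem _⟩ : D.R) =
        a ^ p * ⟨D.g ^ p * b, hmem b⟩ := by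
      apply Subtype.ext
      change D.g ^ p * ((a : D.V[X]) ^ p * b) = (a : D.V[X]) ^ p * (D.g ^ p * b)
      ring
    change ((φ ⟨D.g ^ p * ((a : D.V[X]) ^ p * b), hmem _⟩ : D.R) : D.V[X]) = _
    rw [this, hφ]
    rfl
  have hψ_mul : ∀ a b, ψ (a ^ p * b) = a * ψ b := by
    intro a b
    apply mul_left_cancel₀ D.g_ne
    have e1 := hψ_R ⟨D.g, D.g_mem⟩ (a ^ p * b)
    have e2 := hψ_R ⟨D.g * a, D.g_mul_mem a⟩ b
    simp only at e1 e2
    rw [← e1, ← mul_assoc D.g a, ← e2]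
    congr 1
    ring
  have hdvd : ∀ h, D.g ∣ ψ h := by
    intro h
    have e1 : ψ (D.eta ^ p * h) ∈ D.R := hψR _
    rw [hψ_mul, mem_R, map_mul D.ev1, map_mul D.ev2, ev1_eta, ev2_eta, zero_mul, one_mul,
      map_zero] at e1
    have e2 : D.s (D.ev1 (ψ h)) = D.ev2 (ψ h) := hψR h
    rw [← e1, map_eq_zero_iff _ D.s.injective] at e2
    exact D.g_dvd e2 e1.symm
  choose φ' hφ' using hdvd
  have hadd : ∀ a b, φ' (a + b) = φ' a + φ' b := by
    intro a b
    apply mul_left_cancel₀ D.g_ne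
    rw [← hφ', hψ_add, hφ', hφ' b, mul_add]
  refine ⟨AddMonoidHom.mk' φ' hadd, ?_, ?_⟩
  · intro a b
    change φ' (a ^ p * b) = a * φ' b
    apply mul_left_cancel₀ D.g_ne
    rw [← hφ', hψ_mul, hφ']
    ring
  · intro h
    change φ' (h : D.V[X]) = (φ h : D.V[X])
    apply mul_left_cancel₀ D.g_ne
    rw [← hφ']
    have : (⟨D.g ^ p * (h : D.V[X]), hmem _⟩ : D.R) = (⟨D.g, D.g_mem⟩ : D.R) ^ p * h := by
      apply Subtype.ext
      rfl
    change ((φ ⟨D.g ^ p * (h : D.V[X]), hmem _⟩ : D.R) : D.V[X]) = _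
    rw [this, hφ]
    rfl

lemma d_pow (i : D.I) (a : L) (n : ℕ) : D.d i (a ^ n) = n * a ^ (n - 1) * D.d i a := by
  have h1 : D.d i 1 = 0 := by
    have := D.d_mul i 1 1
    simp only [mul_one, one_mul] at this
    exact left_eq_add.mp this
  induction n with
  | zero => simp [h1]
  | succ n ih =>
    rw [pow_succ, D.d_mul, ih]
    rcases n with _ | n
    · simp
    · simp only [Nat.add_sub_cancel]
      push_cast
      ring

lemma d_x_pow (i : D.I) (n : ℕ) : D.d i (D.x ^ n) = 0 := by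
  rw [d_pow, D.d_x, mul_zero]

lemma d_x_inv (i : D.I) : D.d i D.x⁻¹ = 0 := by
  have h := D.d_mul i D.x D.x⁻¹
  rw [mul_inv_cancel₀ D.x_ne, D.d_x, zero_mul, zero_add] at h
  have h1 : D.d i 1 = 0 := by
    have := D.d_mul i 1 1
    simp only [mul_one, one_mul] at this
    exact left_eq_add.mp this
  rw [h1] at h
  rcases mul_eq_zero.mp h.symm with h | h
  · exact absurd h D.x_ne
  · exact h

/-- A polynomial whose coefficients are killed by `d i`, evaluated at a constant of `d i`. -/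
lemma d_eval (i : D.I) (c : L) (hc : D.d i c = 0) (f : D.V[X])
    (hf : ∀ n, D.d i (f.coeff n : L) = 0) : D.d i (eval₂ D.V.subtype c f) = 0 := by
  rw [eval₂_eq_sum_range, map_sum]
  apply Finset.sum_eq_zero
  intro n _
  rw [D.d_mul, d_pow, hc, mul_zero, mul_zero, add_zero]
  have := hf n
  change D.d i (f.coeff n : L) * c ^ n = 0
  rw [this, zero_mul]

/-- The main point: `p⁻¹`-linear maps of `R` kill `z` at the prime. -/
lemma ev2_apply_z [hp : Fact p.Prime] (φ : D.R →+ D.R)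
    (hφ : ∀ a b, φ (a ^ p * b) = a * φ b) (zR : D.R) (hz : (zR : D.V[X]) = C D.zV) :
    D.ev2 (φ zR : D.V[X]) = 0 := by
  obtain ⟨φ', hφ', hext⟩ := D.exists_extension hp.out.pos φ hφ
  have : Countable D.T := D.countable
  have : Uncountable D.I := D.uncountable
  let eV : D.T → D.V := fun t => ⟨D.e t, D.e_mem t⟩
  -- choose an index `i` whose derivation kills everything in sight
  obtain ⟨i, hi⟩ : ∃ i : D.I, (∀ (t : D.T) (n : ℕ), D.d i ((φ' (C (eV t))).coeff n : L) = 0) ∧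
      ∀ n : ℕ, D.d i ((φ' (C D.zV)).coeff n : L) = 0 := by
    by_contra hcon
    push Not at hcon
    have hcov : (Set.univ : Set D.I) ⊆
        (⋃ t : D.T, ⋃ n : ℕ, {i | D.d i ((φ' (C (eV t))).coeff n : L) ≠ 0}) ∪
        ⋃ n : ℕ, {i | D.d i ((φ' (C D.zV)).coeff n : L) ≠ 0} := by
      intro i _
      by_cases h : ∀ (t : D.T) (n : ℕ), D.d i ((φ' (C (eV t))).coeff n : L) = 0
      · right
        obtain ⟨n, hn⟩ := hcon i h
        exact Set.mem_iUnion.mpr ⟨n, hn⟩
      · left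
        push Not at h
        obtain ⟨t, n, hn⟩ := h
        exact Set.mem_iUnion.mpr ⟨t, Set.mem_iUnion.mpr ⟨n, hn⟩⟩
    have hcount : (Set.univ : Set D.I).Countable := by
      refine Set.Countable.mono hcov ?_
      apply Set.Countable.union
      · exact Set.countable_iUnion fun t => Set.countable_iUnion fun n => (D.d_fin _).countable
      · exact Set.countable_iUnion fun n => (D.d_fin _).countable
    exact not_countable (Set.countable_univ_iff.mp hcount)
  obtain ⟨hi1, hi2⟩ := hi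
  let wV : D.V := ⟨D.w i, D.w_mem i⟩
  let tauV : D.V := ⟨D.tau i, D.tau_mem i⟩
  -- the coefficients of `φ' (w i)` are killed by `d i`
  have hG : ∀ n, D.d i ((φ' (C wV)).coeff n : L) = 0 := by
    intro n
    apply D.sep
    intro M
    obtain ⟨v, hv, htail⟩ := D.tail i M
    have e1 : C wV = ∑ m ∈ Finset.range M, (C D.xV ^ m) ^ p * C (eV (D.r i m)) +
        (C D.xV ^ M) ^ p * C (⟨v, hv⟩ : D.V) := by
      have : wV = ∑ m ∈ Finset.range M, (D.xV ^ m) ^ p * (eV (D.r i m)) +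
        (D.xV ^ M) ^ p * (⟨v, hv⟩ : D.V) := by
        apply Subtype.ext
        simp only [Subring.coe_add, Subring.coe_mul, SubmonoidClass.coe_pow, coe_xV,
          AddSubmonoidClass.coe_finsetSum]
        change D.w i = _
        rw [htail]
        congr 1
        · apply Finset.sum_congr rfl
          intro m _
          rw [← pow_mul, mul_comm m p]
        · rw [← pow_mul, mul_comm M p]
      rw [this]
      simp only [map_add, map_mul, map_pow, map_sum]
    have e2 : φ' (C wV) = ∑ m ∈ Finset.range M, C D.xV ^ m * φ' (C (eV (D.r i m))) +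
        C D.xV ^ M * φ' (C (⟨v, hv⟩ : D.V)) := by
      rw [e1, map_add, map_sum, hφ']
      congr 1
      apply Finset.sum_congr rfl
      intro m _
      rw [hφ']
    have e3 : ((φ' (C wV)).coeff n : L) =
        ∑ m ∈ Finset.range M, D.x ^ m * ((φ' (C (eV (D.r i m)))).coeff n : L) +
          D.x ^ M * ((φ' (C (⟨v, hv⟩ : D.V))).coeff n : L) := by
      rw [e2]
      simp only [← C_pow, coeff_add, finsetSum_coeff, coeff_C_mul, Subring.coe_add,
        Subring.coe_mul, SubmonoidClass.coe_pow, coe_xV, AddSubmonoidClass.coe_finsetSum]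
    refine ⟨D.d i ((φ' (C (⟨v, hv⟩ : D.V))).coeff n : L), D.d_mem i _ (Subtype.property _), ?_⟩
    rw [e3, map_add, map_sum, D.d_mul, d_x_pow, zero_mul, zero_add]
    rw [Finset.sum_eq_zero, zero_add]
    intro m _
    rw [D.d_mul, d_x_pow, zero_mul, zero_add, hi1, mul_zero]
  -- the element of `R`
  have hmem : C wV + (C tauV * D.eta) ^ p * C D.zV ∈ D.R := by
    rw [mem_R]
    simp only [map_add, map_mul, map_pow, ev1_C, ev2_C, ev1_eta, ev2_eta, mul_zero, mul_one]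
    rw [map_zero, zero_pow hp.out.ne_zero, zero_mul, add_zero]
    exact D.s_w i
  have h1 : φ' (C wV + (C tauV * D.eta) ^ p * C D.zV) ∈ D.R := by
    have := hext ⟨_, hmem⟩
    simp only at this
    rw [this]
    exact Subtype.property _
  rw [map_add, hφ', mem_R] at h1
  simp only [map_add D.ev1, map_add D.ev2, map_mul, ev1_C, ev2_C, ev1_eta, ev2_eta, mul_zero,
    mul_one, zero_mul, add_zero] at h1
  -- apply the derivation
  have h2 := congrArg (D.d i) h1
  rw [D.d_s, map_add, D.d_mul] at h2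
  have k1 : D.d i (D.ev1 (φ' (C wV))) = 0 := D.d_eval i _ (D.d_x_inv i) _ hG
  have hzx : D.d i (D.z * D.x⁻¹) = 0 := by
    rw [D.d_mul, D.d_z, D.d_x_inv, zero_mul, mul_zero, add_zero]
  have k2 : D.d i (D.ev2 (φ' (C wV))) = 0 := D.d_eval i _ hzx _ hG
  have k3 : D.d i (D.ev2 (φ' (C D.zV))) = 0 := D.d_eval i _ hzx _ hi2
  rw [k1, k2, k3, map_zero] at h2
  have k4 : D.d i (tauV : L) = 1 := D.d_tau i
  rw [k4, one_mul, mul_zero, add_zero, zero_add] at h2
  rw [← hext zR, hz]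
  exact h2.symm

/-- Every `p⁻¹`-linear map of `R` sends `1` into the prime. -/
lemma ev2_apply_one [hp : Fact p.Prime] (φ : D.R →+ D.R)
    (hφ : ∀ a b, φ (a ^ p * b) = a * φ b) : D.ev2 (φ 1 : D.V[X]) = 0 := by
  have hzR : C D.zV ∈ D.R := by
    rw [mem_R, ev1_C, ev2_C]
    exact D.s_z
  let zR : D.R := ⟨C D.zV, hzR⟩
  let φz : D.R →+ D.R := φ.comp (AddMonoidHom.mulLeft (zR ^ (p - 1)))
  have h1 : ∀ a b, φz (a ^ p * b) = a * φz b := by
    intro a b
    change φ (zR ^ (p - 1) * (a ^ p * b)) = a * φ (zR ^ (p - 1) * b)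
    rw [← hφ]
    congr 1
    ring
  have h2 := D.ev2_apply_z φz h1 zR rfl
  have h3 : φz zR = zR * φ 1 := by
    change φ (zR ^ (p - 1) * zR) = _
    rw [← pow_succ, Nat.sub_add_cancel hp.out.pos, ← hφ, mul_one]
  rw [h3] at h2
  have h4 : ((zR * φ 1 : D.R) : D.V[X]) = C D.zV * (φ 1 : D.V[X]) := rfl
  rw [h4, map_mul, ev2_C] at h2
  rcases mul_eq_zero.mp h2 with h | h
  · exact absurd h D.z_ne
  · exact h

end WildData

end Pool.Agent.Lib_helper31
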