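import Mathlib
import Pool.Agent.Lib_helper31.WildData
import Pool.Agent.Lib_helper31.Pull
import Pool.Agent.Lib_helper31.Closure

/-!
# The concrete wild data
-/

set_option autoImplicit false

namespace Pool.Agent.Lib_helper31.Branch

open PowerSeries (C X coeff mk constantCoeff)

variable (p : ℕ) [hp : Fact p.Prime]

/-- The coefficient field. -/
abbrev K : Type := FractionRing (A1 p)

/-- The field. -/
abbrev L : Type := FractionRing (A p)

/-- The field of fractions of the power series ring. -/
abbrev Q : Type := FractionRing (PowerSeries (K p))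

/-- The inclusion of the coefficient ring in the coefficient field. -/
noncomputable abbrev jK : A1 p →+* K p := algebraMap (A1 p) (K p)

/-- The inclusion of `A` in its fraction field. -/
noncomputable abbrev io : A p →+* L p := algebraMap (A p) (L p)

/-- The inclusion of the power series ring in its fraction field. -/
noncomputable abbrev jQ : PowerSeries (K p) →+* Q p := algebraMap (PowerSeries (K p)) (Q p)

lemma jK_injective : Function.Injective (jK p) := IsFractionRing.injective _ _
lemma io_injective : Function.Injective (io p) := IsFractionRing.injective _ _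
lemma jQ_injective : Function.Injective (jQ p) := IsFractionRing.injective _ _

/-- The map `Φ` with values in the power series ring over the coefficient field. -/
noncomputable def PhiK : A p →+* PowerSeries (K p) :=
  (PowerSeries.map (jK p)).comp (Phi p).toRingHom

lemma PhiK_apply (a : A p) : PhiK p a = PowerSeries.map (jK p) (Phi p a) := rfl

lemma PhiK_injective : Function.Injective (PhiK p) := by
  intro a b h
  apply Phi_injective p
  ext1 n
  apply jK_injective p
  have := congrArg (coeff n) h
  simpa [PhiK_apply] using this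

lemma jQPhiK_injective : Function.Injective ((jQ p).comp (PhiK p)) :=
  (jQ_injective p).comp (PhiK_injective p)

/-- The embedding of the field. -/
noncomputable def T : L p →+* Q p := IsFractionRing.lift (jQPhiK_injective p)

lemma T_io (a : A p) : T p (io p a) = jQ p (PhiK p a) :=
  IsFractionRing.lift_algebraMap (jQPhiK_injective p) a

/-- The discrete valuation ring. -/
noncomputable abbrev V : Subring (L p) := Pull.V (K := K p) (T p)

lemma io_mem (a : A p) : io p a ∈ V p := ⟨PhiK p a, (T_io p a).symm⟩

/-- The uniformizer. -/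
noncomputable def x : L p := io p (MvPolynomial.X VA.x)

/-- The unit `z`. -/
noncomputable def z : L p := io p (MvPolynomial.X (VA.c V0.z))

lemma T_x : T p (x p) = jQ p X := by
  rw [x, T_io, PhiK_apply, Phi_X, phiVar, PowerSeries.map_X]

lemma T_z : T p (z p) = jQ p (C (jK p (MvPolynomial.X V0.z))) := by
  rw [z, T_io, PhiK_apply, Phi_X, phiVar, PowerSeries.map_C]

/-! ### The automorphism -/

/-- The images of the variables under the automorphism. -/
noncomputable def sVar (c : A p) : VA → A p
  | VA.c v => MvPolynomial.X (VA.c v)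
  | VA.x => MvPolynomial.X VA.x
  | VA.w f => MvPolynomial.X (VA.w f) + c * MvPolynomial.X (VA.c (V0.tau f)) ^ p *
      MvPolynomial.X (VA.c V0.z)

/-- The automorphism of the polynomial ring. -/
noncomputable def sA : A p ≃ₐ[ZMod p] A p :=
  AlgEquiv.ofAlgHom (MvPolynomial.aeval (sVar p 1)) (MvPolynomial.aeval (sVar p (-1)))
    (by
      apply MvPolynomial.algHom_ext
      intro v
      match v with
      | VA.c v => simp [sVar]
      | VA.x => simp [sVar]
      | VA.w f => simp [sVar])
    (by
      apply MvPolynomial.algHom_ext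
      intro v
      match v with
      | VA.c v => simp [sVar]
      | VA.x => simp [sVar]
      | VA.w f => simp [sVar])

lemma sA_X (v : VA) : sA p (MvPolynomial.X v) = sVar p 1 v := by
  simp [sA]

/-- The automorphism of the field. -/
noncomputable def s : L p ≃+* L p := IsFractionRing.ringEquivOfRingEquiv (sA p).toRingEquiv

lemma s_io (a : A p) : s p (io p a) = io p (sA p a) :=
  IsFractionRing.ringEquivOfRingEquiv_algebraMap _ _

/-! ### The derivations -/

/-- The derivation of the polynomial ring, as an additive map. -/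
noncomputable def dA (f : ℕ → Bool) : A p →+ A p :=
  (MvPolynomial.pderiv (R := ZMod p) (VA.c (V0.tau f))).toLinearMap.toAddMonoidHom

lemma dA_apply (f : ℕ → Bool) (a : A p) :
    dA p f a = MvPolynomial.pderiv (VA.c (V0.tau f)) a := rfl

lemma dA_leibniz (f : ℕ → Bool) : Leibniz (dA p f) := by
  intro a b
  simp only [dA_apply]
  rw [Derivation.leibniz, smul_eq_mul, smul_eq_mul]
  ring

/-- The derivation of the coefficient ring, as an additive map. -/
noncomputable def dA1 (f : ℕ → Bool) : A1 p →+ A1 p :=
  (MvPolynomial.pderiv (R := ZMod p) (V0.tau f)).toLinearMap.toAddMonoidHom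

lemma dA1_apply (f : ℕ → Bool) (a : A1 p) :
    dA1 p f a = MvPolynomial.pderiv (V0.tau f) a := rfl

lemma dA1_leibniz (f : ℕ → Bool) : Leibniz (dA1 p f) := by
  intro a b
  simp only [dA1_apply]
  rw [Derivation.leibniz, smul_eq_mul, smul_eq_mul]
  ring

/-- The derivation of the field. -/
noncomputable def d (f : ℕ → Bool) : L p →+ L p :=
  (exists_der_fraction (L := L p) (dA p f) (dA_leibniz p f)).choose

lemma d_leibniz (f : ℕ → Bool) : Leibniz (d p f) :=
  (exists_der_fraction (L := L p) (dA p f) (dA_leibniz p f)).choose_spec.1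

lemma d_io (f : ℕ → Bool) (a : A p) : d p f (io p a) = io p (dA p f a) :=
  (exists_der_fraction (L := L p) (dA p f) (dA_leibniz p f)).choose_spec.2 a

/-- The derivation of the coefficient field. -/
noncomputable def dK (f : ℕ → Bool) : K p →+ K p :=
  (exists_der_fraction (L := K p) (dA1 p f) (dA1_leibniz p f)).choose

lemma dK_leibniz (f : ℕ → Bool) : Leibniz (dK p f) :=
  (exists_der_fraction (L := K p) (dA1 p f) (dA1_leibniz p f)).choose_spec.1

lemma dK_jK (f : ℕ → Bool) (a : A1 p) : dK p f (jK p a) = jK p (dA1 p f a) :=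
  (exists_der_fraction (L := K p) (dA1 p f) (dA1_leibniz p f)).choose_spec.2 a

lemma dA_C (f : ℕ → Bool) (r : ZMod p) : dA p f (MvPolynomial.C r) = 0 := by
  rw [dA_apply, MvPolynomial.pderiv_C]

lemma dA_X (f : ℕ → Bool) (v : VA) (h : v ≠ VA.c (V0.tau f)) :
    dA p f (MvPolynomial.X v) = 0 := by
  rw [dA_apply, MvPolynomial.pderiv_X_of_ne h]

lemma dA_X_self (f : ℕ → Bool) : dA p f (MvPolynomial.X (VA.c (V0.tau f))) = 1 := by
  rw [dA_apply, MvPolynomial.pderiv_X_self]

lemma psDer_Phi (f : ℕ → Bool) (a : A p) :
    psDer (dA1 p f) (Phi p a) = Phi p (dA p f a) := by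
  have hL := psDer_leibniz _ (dA1_leibniz p f)
  induction a using MvPolynomial.induction_on with
  | C r =>
    rw [dA_C, map_zero]
    have h1 : Phi p (MvPolynomial.C r) = C (MvPolynomial.C r) := by
      have := Subsingleton.elim ((Phi p).toRingHom.comp MvPolynomial.C)
        ((C : A1 p →+* PowerSeries (A1 p)).comp MvPolynomial.C)
      exact RingHom.congr_fun this r
    rw [h1, psDer_C, dA1_apply, MvPolynomial.pderiv_C, map_zero]
  | add a b ha hb => rw [map_add, map_add, ha, hb, map_add, map_add]
  | mul_X a v ha =>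
    rw [map_mul, hL, ha, dA_leibniz p f, map_add, map_mul, map_mul]
    congr 2
    rw [Phi_X]
    match v with
    | VA.x => rw [phiVar, psDer_X _ (dA1_leibniz p f), dA_X p f _ (by simp), map_zero]
    | VA.w g =>
      rw [dA_X p f _ (by simp), map_zero, phiVar]
      ext1 k
      rw [coeff_psDer, coeff_Wt, map_zero]
      split_ifs
      · rw [dA1_apply, MvPolynomial.pderiv_X_of_ne (by simp)]
      · exact map_zero _
    | VA.c v =>
      rw [phiVar, psDer_C, dA1_apply]
      by_cases h : v = V0.tau f
      · subst h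
        rw [MvPolynomial.pderiv_X_self, dA_X_self, map_one, map_one]
      · rw [MvPolynomial.pderiv_X_of_ne h, dA_X p f _ (by simpa using h), map_zero, map_zero]

lemma psDer_PhiK (f : ℕ → Bool) (a : A p) :
    psDer (dK p f) (PhiK p a) = PhiK p (dA p f a) := by
  rw [PhiK_apply, PhiK_apply, ← psDer_Phi]
  ext1 k
  rw [coeff_psDer, PowerSeries.coeff_map, PowerSeries.coeff_map, coeff_psDer, dK_jK]

lemma d_mem (f : ℕ → Bool) (l : L p) (hl : l ∈ V p) : d p f l ∈ V p := by
  obtain ⟨F, hF⟩ := hl
  obtain ⟨a, b, hb, hab⟩ := IsFractionRing.div_surjective (A := A p) l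
  have hb0 : io p b ≠ 0 := fun h =>
    nonZeroDivisors.ne_zero hb (io_injective p (h.trans (map_zero _).symm))
  have e : l * io p b = io p a := by rw [← hab]; exact div_mul_cancel₀ _ hb0
  have e1 : F * PhiK p b = PhiK p a := by
    apply jQ_injective p
    rw [map_mul, ← T_io, ← T_io, ← e, map_mul]
    congr 1
  have e2 := congrArg (psDer (dK p f)) e1
  rw [psDer_leibniz _ (dK_leibniz p f), psDer_PhiK, psDer_PhiK] at e2
  have e3 := congrArg (jQ p) e2
  have e4 := congrArg (d p f) e
  rw [d_leibniz p f, d_io, d_io] at e4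
  have e5 := congrArg (T p) e4
  rw [map_add, map_mul, map_mul, T_io, T_io, T_io] at e5
  rw [map_add, map_mul, map_mul] at e3
  refine ⟨psDer (dK p f) F, ?_⟩
  have hb1 : jQ p (PhiK p b) ≠ 0 := by
    rw [← T_io]
    exact (map_ne_zero (T p)).mpr hb0
  apply mul_right_cancel₀ hb1
  have hF' : jQ p F = T p l := hF
  change jQ p (psDer (dK p f) F) * _ = _
  rw [hF'] at e3
  linear_combination e3 - e5

lemma d_fin (l : L p) : {f | d p f l ≠ 0}.Finite := by
  classical
  obtain ⟨a, b, hb, rfl⟩ := IsFractionRing.div_surjective (A := A p) l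
  have hinj : Function.Injective (fun f : ℕ → Bool => VA.c (V0.tau f)) := by
    intro f g h
    simpa using h
  refine Set.Finite.subset (((a.vars ∪ b.vars).finite_toSet).preimage hinj.injOn) ?_
  intro f hf
  by_contra hcon
  apply hf
  simp only [Set.mem_preimage, Finset.mem_coe, Finset.mem_union, not_or] at hcon
  apply der_div_eq_zero _ (d_leibniz p f)
  · change d p f (io p a) = 0
    rw [d_io, dA_apply, MvPolynomial.pderiv_eq_zero_of_notMem_vars hcon.1, map_zero]
  · change d p f (io p b) = 0
    rw [d_io, dA_apply, MvPolynomial.pderiv_eq_zero_of_notMem_vars hcon.2, map_zero]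

lemma dA_sA (f : ℕ → Bool) (a : A p) : dA p f (sA p a) = sA p (dA p f a) := by
  induction a using MvPolynomial.induction_on with
  | C r =>
    rw [dA_C, map_zero]
    have : sA p (MvPolynomial.C r) = MvPolynomial.C r := (sA p).commutes r
    rw [this, dA_C]
  | add a b ha hb => rw [map_add, map_add, ha, hb, map_add, map_add]
  | mul_X a v ha =>
    rw [map_mul, dA_leibniz p f, ha, dA_leibniz p f, map_add, map_mul, map_mul]
    congr 2
    rw [sA_X]
    match v with
    | VA.x => rw [sVar, dA_X p f _ (by simp), map_zero]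
    | VA.w g =>
      rw [sVar, dA_X p f (VA.w g) (by simp), map_zero, map_add, dA_X p f (VA.w g) (by simp),
        zero_add, one_mul]
      apply (dA_leibniz p f).map_mul_eq_zero
      · rw [(dA_leibniz p f).map_pow, CharP.cast_eq_zero, zero_mul, zero_mul]
      · exact dA_X p f _ (by simp)
    | VA.c v =>
      rw [sVar]
      by_cases h : v = V0.tau f
      · subst h
        rw [dA_X_self, map_one]
      · rw [dA_X p f _ (by simpa using h), map_zero]

lemma d_s (f : ℕ → Bool) (l : L p) : d p f (s p l) = s p (d p f l) := by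
  let D' : L p →+ L p := ((s p).symm.toAddEquiv.toAddMonoidHom.comp (d p f)).comp
    (s p).toAddEquiv.toAddMonoidHom
  have hD'a : ∀ l, D' l = (s p).symm (d p f (s p l)) := fun l => rfl
  have hD' : Leibniz D' := by
    intro a b
    rw [hD'a, hD'a, hD'a, map_mul, d_leibniz p f, map_add, map_mul, map_mul,
      RingEquiv.symm_apply_apply, RingEquiv.symm_apply_apply]
  have := der_unique (A := A p) D' (d p f) hD' (d_leibniz p f) (by
    intro a
    rw [hD'a]
    change (s p).symm (d p f (s p (io p a))) = d p f (io p a)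
    rw [s_io, d_io, dA_sA, ← s_io, RingEquiv.symm_apply_apply, d_io]) l
  rw [hD'a] at this
  rw [← this, RingEquiv.apply_symm_apply]

/-! ### The `p⁻¹`-linear map -/

theorem exists_kK : ∃ kK : K p →+ K p, (∀ a b, kK (a ^ p * b) = a * kK b) ∧
    ∀ a, kK (jK p a) = jK p (mvCartier p a) := by
  obtain ⟨ψ, h1, h2⟩ := exists_cartier_localization (R := A1 p) (B := K p)
    (nonZeroDivisors (A1 p)) p hp.out.pos
    ((jK p).toAddMonoidHom.comp (mvCartier p).toAddMonoidHom)
    (by
      intro a b
      change jK p (mvCartier p (a ^ p * b)) = jK p a * jK p (mvCartier p b)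
      rw [mvCartier_mul, map_mul])
  exact ⟨ψ, h1, h2⟩

/-- The `p⁻¹`-linear map on the coefficient field. -/
noncomputable def kK : K p →+ K p := (exists_kK p).choose

lemma kK_mul (a b : K p) : kK p (a ^ p * b) = a * kK p b := (exists_kK p).choose_spec.1 a b

lemma kK_jK (a : A1 p) : kK p (jK p a) = jK p (mvCartier p a) := (exists_kK p).choose_spec.2 a

lemma kK_one : kK p 1 = 1 := by
  have := kK_jK p 1
  rwa [mvCartier_one, map_one] at this

instance : CharP (K p) p := charP_of_injective_algebraMap (jK_injective p) p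

instance : CharP (L p) p := charP_of_injective_algebraMap (io_injective p) p

lemma psCartier_PhiK (a : A p) : ∃ b : A p, psCartier p (kK p) (PhiK p a) = PhiK p b := by
  obtain ⟨b, hb⟩ := psC_Phi p a
  refine ⟨b, ?_⟩
  rw [PhiK_apply, PhiK_apply, ← hb]
  ext1 k
  rw [coeff_psCartier, PowerSeries.coeff_map, PowerSeries.coeff_map, kK_jK, psC, coeff_psCartier]
  rfl

lemma exists_k (v : V p) : ∃ v' : V p,
    Pull.th (T p) v' = psCartier p (kK p) (Pull.th (T p) v) := by
  obtain ⟨a, b, hb, hab⟩ := IsFractionRing.div_surjective (A := A p) (v : L p)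
  have hb0 : io p b ≠ 0 := fun h =>
    nonZeroDivisors.ne_zero hb (io_injective p (h.trans (map_zero _).symm))
  set F := Pull.th (T p) v with hF
  have e : (v : L p) * io p b = io p a := by rw [← hab]; exact div_mul_cancel₀ _ hb0
  have e1 : F * PhiK p b = PhiK p a := by
    apply jQ_injective p
    rw [map_mul, ← T_io, ← T_io, ← e, map_mul]
    congr 1
    exact Pull.th_spec (T p) v
  obtain ⟨c, hc⟩ := psCartier_PhiK p (b ^ (p - 1) * a)
  have e2 : PhiK p b * psCartier p (kK p) F = PhiK p c := by
    rw [← psCartier_mul p _ (kK_mul p), ← hc]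
    congr 1
    rw [map_mul, map_pow, ← e1, ← mul_assoc, mul_right_comm, ← pow_succ,
      Nat.sub_add_cancel hp.out.pos]
  have e3 : jQ p (psCartier p (kK p) F) = T p (io p c / io p b) := by
    rw [map_div₀, T_io, T_io, ← e2, map_mul]
    rw [mul_div_cancel_left₀]
    rw [← T_io]
    exact (map_ne_zero (T p)).mpr hb0
  exact ⟨⟨io p c / io p b, _, e3⟩, Pull.th_eq (T p) e3⟩

/-- The `p⁻¹`-linear map on `V`. -/
noncomputable def kV : V p →+ V p where
  toFun v := (exists_k p v).choose
  map_zero' := by
    apply Pull.th_injective (T p)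
    rw [(exists_k p 0).choose_spec, map_zero, map_zero]
  map_add' a b := by
    apply Pull.th_injective (T p)
    rw [(exists_k p (a + b)).choose_spec, map_add, map_add, map_add,
      (exists_k p a).choose_spec, (exists_k p b).choose_spec]

lemma th_kV (v : V p) : Pull.th (T p) (kV p v) = psCartier p (kK p) (Pull.th (T p) v) :=
  (exists_k p v).choose_spec

lemma kV_mul (a b : V p) : kV p (a ^ p * b) = a * kV p b := by
  apply Pull.th_injective (T p)
  rw [th_kV, map_mul, map_pow, psCartier_mul p _ (kK_mul p), map_mul, th_kV]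

lemma psCartier_one : psCartier p (kK p) (1 : PowerSeries (K p)) = 1 := by
  ext1 k
  rw [coeff_psCartier, PowerSeries.coeff_one, PowerSeries.coeff_one]
  by_cases hk : k = 0
  · subst hk
    rw [mul_zero, if_pos rfl, kK_one]
  · rw [if_neg (mul_ne_zero hp.out.ne_zero hk), if_neg hk, map_zero]

lemma kV_one : kV p 1 = 1 := by
  apply Pull.th_injective (T p)
  rw [th_kV, map_one, psCartier_one]

/-! ### The series -/

lemma tail (f : ℕ → Bool) (M : ℕ) : ∃ v ∈ V p, io p (MvPolynomial.X (VA.w f)) =
    ∑ m ∈ Finset.range M, x p ^ (p * m) * io p (MvPolynomial.X (VA.c (V0.e (nd f m)))) +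
      x p ^ (p * M) * v := by
  have hx : x p ≠ 0 := Pull.x_ne (T p) (x p) (T_x p)
  have hx' : x p ^ (p * M) ≠ 0 := pow_ne_zero _ hx
  refine ⟨(io p (MvPolynomial.X (VA.w f)) - ∑ m ∈ Finset.range M, x p ^ (p * m) *
    io p (MvPolynomial.X (VA.c (V0.e (nd f m))))) / x p ^ (p * M), ?_, ?_⟩
  · refine ⟨PowerSeries.map (jK p) (Wt p f M), ?_⟩
    rw [map_div₀, eq_div_iff ((map_ne_zero (T p)).mpr hx'), map_sub, map_sum, T_io,
      PhiK_apply, Phi_X, phiVar, Wt_zero_eq p f M]
    have e1 : PowerSeries.map (jK p) (head p f M : PowerSeries (A1 p)) =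
        ∑ m ∈ Finset.range M, X ^ (p * m) * C (jK p (MvPolynomial.X (V0.e (nd f m)))) := by
      have h := map_sum (Polynomial.coeToPowerSeries.ringHom (R := A1 p))
        (fun m => Polynomial.C (MvPolynomial.X (V0.e (nd f m))) * Polynomial.X ^ (p * m))
        (Finset.range M)
      rw [Polynomial.coeToPowerSeries.ringHom_apply] at h
      rw [head, h, map_sum]
      apply Finset.sum_congr rfl
      intro m _
      rw [map_mul, map_pow]
      simp only [Polynomial.coeToPowerSeries.ringHom_apply, Polynomial.coe_C, Polynomial.coe_X]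
      rw [map_mul, map_pow, PowerSeries.map_X, PowerSeries.map_C, mul_comm]
    have e2 : ∑ m ∈ Finset.range M, T p (x p ^ (p * m) *
        io p (MvPolynomial.X (VA.c (V0.e (nd f m))))) =
        jQ p (PowerSeries.map (jK p) (head p f M : PowerSeries (A1 p))) := by
      rw [e1, map_sum]
      apply Finset.sum_congr rfl
      intro m _
      rw [map_mul, map_pow, T_x, T_io, PhiK_apply, Phi_X, phiVar, PowerSeries.map_C, map_mul,
        map_pow]
    rw [e2, map_add, map_add, map_mul, map_mul, map_pow, map_pow, PowerSeries.map_X, map_pow, T_x]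
    ring
  · field_simp
    ring

lemma z_inv_mem : (z p)⁻¹ ∈ V p := by
  apply Pull.inv_mem (T p) _ (T_z p).symm
  rw [PowerSeries.constantCoeff_C]
  intro h
  exact MvPolynomial.X_ne_zero _ (jK_injective p (h.trans (map_zero _).symm))

lemma z_sub_one_inv_mem : (z p - 1)⁻¹ ∈ V p := by
  apply Pull.inv_mem (T p) (C (jK p (MvPolynomial.X V0.z - 1)))
  · rw [map_sub, map_sub (T p), T_z, map_one, map_one, map_sub, map_sub, map_one, map_one]
  · rw [PowerSeries.constantCoeff_C]
    intro h
    have h1 := jK_injective p (h.trans (map_zero _).symm)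
    have h2 : (MvPolynomial.X V0.z : A1 p) = 1 := sub_eq_zero.mp h1
    have h3 := congrArg (MvPolynomial.eval (fun _ => (0 : ZMod p))) h2
    simp at h3

lemma z_ne : z p ≠ 0 := by
  intro h
  exact MvPolynomial.X_ne_zero _ (io_injective p (h.trans (map_zero _).symm))

lemma z_sub_one_ne : z p - 1 ≠ 0 := by
  intro h
  have h1 : io p (MvPolynomial.X (VA.c V0.z)) = io p 1 := by
    rw [map_one]
    exact sub_eq_zero.mp h
  have h2 := io_injective p h1
  have h3 := congrArg (MvPolynomial.eval (fun _ => (0 : ZMod p))) h2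
  simp at h3

/-- The wild data. -/
noncomputable def data : WildData p (L p) where
  V := V p
  noeth := Pull.noeth (T p) (x p) (T_x p)
  x := x p
  x_mem := Pull.x_mem (T p) (x p) (T_x p)
  x_ne := Pull.x_ne (T p) (x p) (T_x p)
  exists_pow := Pull.exists_pow (T p) (x p) (T_x p)
  sep := Pull.sep (T p) (x p) (T_x p)
  z := z p
  z_mem := io_mem p _
  z_ne := z_ne p
  zinv_mem := z_inv_mem p
  z1_ne := z_sub_one_ne p
  z1inv_mem := z_sub_one_inv_mem p
  s := s p
  s_x := by rw [x, s_io, sA_X, sVar]
  s_z := by rw [z, s_io, sA_X, sVar]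
  I := ℕ → Bool
  T := List Bool
  uncountable := by
    rw [← not_countable_iff]
    intro h
    obtain ⟨g, hg⟩ := exists_surjective_nat (ℕ → Bool)
    obtain ⟨n, hn⟩ := hg (fun k => !(g k k))
    have := congrFun hn n
    simp at this
  countable := inferInstance
  d := d p
  d_mul := fun i => d_leibniz p i
  d_x := fun i => by rw [x, d_io, dA_X p i _ (by simp), map_zero]
  d_z := fun i => by rw [z, d_io, dA_X p i _ (by simp), map_zero]
  d_s := d_s p
  d_mem := d_mem p
  d_fin := d_fin p
  tau := fun i => io p (MvPolynomial.X (VA.c (V0.tau i)))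
  tau_mem := fun i => io_mem p _
  d_tau := fun i => by rw [d_io, dA_X_self, map_one]
  w := fun i => io p (MvPolynomial.X (VA.w i))
  w_mem := fun i => io_mem p _
  s_w := fun i => by
    rw [s_io, sA_X, sVar, map_add, one_mul, map_mul, map_pow]
    rfl
  e := fun t => io p (MvPolynomial.X (VA.c (V0.e t)))
  e_mem := fun t => io_mem p _
  r := nd
  tail := tail p
  κ := kV p
  κ_mul := kV_mul p
  κ_one := kV_one p

end Pool.Agent.Lib_helper31.Branch
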