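import Mathlib

/-!
# A Noetherianity criterion for subrings with a conductor
-/

set_option autoImplicit false

namespace Pool.Agent.Lib_helper31

/-- A finite module which is killed by a maximal ideal is Noetherian. -/
theorem isNoetherian_of_killed {A M : Type*} [CommRing A] [AddCommGroup M] [Module A M]
    (P : Ideal A) [hP : P.IsMaximal] [Module.Finite A M] (h : ∀ a ∈ P, ∀ m : M, a • m = 0) :
    IsNoetherian A M := by
  have hM : Module.IsTorsionBySet A M P := fun m a => h a a.2 m
  let : Module (A ⧸ P) M := hM.module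
  let : Field (A ⧸ P) := Ideal.Quotient.field P
  have : IsScalarTower A (A ⧸ P) M := hM.isScalarTower
  have : Module.Finite (A ⧸ P) M := Module.Finite.of_restrictScalars_finite A _ M
  have : IsNoetherian (A ⧸ P) M := inferInstance
  let e : M →ₛₗ[Ideal.Quotient.mk P] M :=
    { AddMonoidHom.id M with map_smul' := fun _ _ => rfl }
  rw [e.isNoetherian_iff_of_bijective Function.bijective_id]
  infer_instance

/-- If the Noetherian ring `B` is generated as a module over its subring `A` by `1` and `eta`,
and if `g B` is contained in `A` and is a maximal ideal of `A`, then `A` is Noetherian. -/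
theorem isNoetherianRing_of_conductor {B : Type*} [CommRing B] [IsNoetherianRing B]
    (A : Subring B) (g eta : B) (hgA : ∀ b, g * b ∈ A)
    (hgen : ∀ b : B, ∃ a a' : A, b = a + a' * eta)
    (hunit : ¬ IsUnit g)
    (hfield : ∀ a : A, (∃ b, (a : B) = g * b) ∨ ∃ (a' : A) (b : B), (a' * a : B) = 1 + g * b) :
    IsNoetherianRing A := by
  classical
  -- the maximal ideal
  let P : Ideal A :=
    { carrier := {a | ∃ b, (a : B) = g * b}
      zero_mem' := ⟨0, by simp⟩
      add_mem' := by
        rintro a a' ⟨b, hb⟩ ⟨b', hb'⟩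
        exact ⟨b + b', by simp [hb, hb', mul_add]⟩
      smul_mem' := by
        rintro c a ⟨b, hb⟩
        exact ⟨c * b, by simp [hb]; ring⟩ }
  have hPmem : ∀ a : A, a ∈ P ↔ ∃ b, (a : B) = g * b := fun a => Iff.rfl
  have hP : P.IsMaximal := by
    rw [Ideal.isMaximal_iff]
    refine ⟨?_, ?_⟩
    · rintro ⟨b, hb⟩
      exact hunit (IsUnit.of_mul_eq_one b (by simpa using hb.symm))
    · intro J a hPJ haP haJ
      rcases hfield a with h | ⟨a', b, h⟩
      · exact absurd h haP
      · have h1 : (1 : A) = a' * a - ⟨g * b, hgA b⟩ := by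
          apply Subtype.ext
          change (1 : B) = (a' : B) * a - g * b
          rw [h]; ring
        rw [h1]
        exact J.sub_mem (J.mul_mem_left _ haJ) (hPJ ⟨b, rfl⟩)
  have : Module.Finite A B := by
    refine ⟨⟨{1, eta}, ?_⟩⟩
    rw [eq_top_iff]
    intro b _
    obtain ⟨a, a', rfl⟩ := hgen b
    apply Submodule.add_mem
    · have : (a : B) = a • (1 : B) := by rw [Subring.smul_def, smul_eq_mul, mul_one]
      rw [this]
      exact Submodule.smul_mem _ _ (Submodule.subset_span (by simp))
    · have : (a' : B) * eta = a' • eta := by rw [Subring.smul_def, smul_eq_mul]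
      rw [this]
      exact Submodule.smul_mem _ _ (Submodule.subset_span (by simp))
  rw [isNoetherianRing_iff_ideal_fg]
  intro J
  let ι : A →ₗ[A] B := Algebra.linearMap A B
  have hι : ∀ a, ι a = (a : B) := fun a => rfl
  have hinj : Function.Injective ι := Subtype.val_injective
  let J' : Submodule A B := Submodule.map ι J
  let M0 : Ideal B := Ideal.span (J' : Set B)
  let M : Submodule A B := M0.restrictScalars A
  have hMfg : M.FG := Submodule.FG.restrictScalars (IsNoetherian.noetherian M0)
  let N : Submodule A B := M.map (LinearMap.mulLeft A g)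
  have hNfg : N.FG := hMfg.map _
  have hJM : J' ≤ M := fun x hx => Ideal.subset_span hx
  have hNJ : N ≤ J' := by
    rintro _ ⟨m, hm, rfl⟩
    change m ∈ M0 at hm
    change g * m ∈ J'
    refine Submodule.span_induction ?_ ?_ ?_ ?_ hm
    · rintro _ ⟨j, hj, rfl⟩
      exact ⟨⟨g, by simpa using hgA 1⟩ * j, J.mul_mem_left _ hj, rfl⟩
    · simp
    · intro x y _ _ hx hy
      rw [mul_add]
      exact J'.add_mem hx hy
    · intro b x hx ih
      -- `g * (b * x)`: need the structure of `x`
      refine Submodule.span_induction (p := fun x _ => ∀ b : B, g * (b • x) ∈ J') ?_ ?_ ?_ ?_ hx b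
      · rintro _ ⟨j, hj, rfl⟩ b
        exact ⟨⟨g * b, hgA b⟩ * j, J.mul_mem_left _ hj, by simp [hι]; ring⟩
      · intro b; simp
      · intro x y _ _ hx hy b
        rw [smul_add, mul_add]
        exact J'.add_mem (hx b) (hy b)
      · intro c x _ hx b
        rw [smul_smul]
        exact hx _
  have key : (J'.map N.mkQ).FG := by
    -- the module `M / N`
    let Q : Submodule A (B ⧸ N) := M.map N.mkQ
    have : Module.Finite A Q := Module.Finite.iff_fg.mpr (hMfg.map _)
    have : IsNoetherian A Q := by
      apply isNoetherian_of_killed P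
      rintro a ⟨b, hb⟩ ⟨_, ⟨m, hm, rfl⟩⟩
      apply Subtype.ext
      change a • N.mkQ m = 0
      rw [← map_smul, Submodule.mkQ_apply, Submodule.Quotient.mk_eq_zero]
      refine ⟨b * m, M0.mul_mem_left _ hm, ?_⟩
      change g * (b * m) = a • m
      rw [Subring.smul_def, hb, smul_eq_mul, mul_assoc]
    have h1 : J'.map N.mkQ ≤ Q := Submodule.map_mono hJM
    exact isNoetherian_submodule.mp inferInstance _ h1
  have hJ' : J'.FG := by
    apply Submodule.fg_of_fg_map_of_fg_inf_ker N.mkQ key
    rw [Submodule.ker_mkQ, inf_eq_right.mpr hNJ]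
    exact hNfg
  exact Submodule.fg_of_fg_map_injective ι hinj hJ'

end Pool.Agent.Lib_helper31
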