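import Mathlib
import Pool.Agent.Lib_helper31.Cartier
import Pool.Agent.Lib_helper31.PerfDefs
import Pool.Agent.Lib_helper31.WildData
import Pool.Agent.Lib_helper31.Noeth

/-!
# Properties of the ring attached to wild data
-/

set_option autoImplicit false

namespace Pool.Agent.Lib_helper31

open Polynomial

namespace WildData

variable {p : ℕ} {L : Type} [Field L] (D : WildData p L)

lemma exists_ev1 (l : L) : ∃ f : D.V[X], D.ev1 f = l := by
  obtain ⟨n, hn⟩ := D.exists_pow l
  refine ⟨C ⟨_, hn⟩ * X ^ n, ?_⟩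
  have := pow_ne_zero n D.x_ne
  rw [map_mul, map_pow, ev1_C, ev1_X, inv_pow]
  simp only
  field_simp

lemma exists_ev2 (l : L) : ∃ f : D.V[X], D.ev2 f = l := by
  obtain ⟨n, hn⟩ := D.exists_pow l
  refine ⟨C (⟨_, hn⟩ * ⟨_, D.zinv_mem⟩ ^ n) * X ^ n, ?_⟩
  have := pow_ne_zero n D.x_ne
  have := pow_ne_zero n D.z_ne
  rw [map_mul, map_pow, ev2_C, ev2_X, mul_pow, inv_pow]
  simp only [Subring.coe_mul, SubmonoidClass.coe_pow, inv_pow]
  field_simp

lemma exists_ev (a b : L) : ∃ f : D.V[X], D.ev1 f = a ∧ D.ev2 f = b := by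
  obtain ⟨f, hf⟩ := D.exists_ev1 a
  obtain ⟨h, hh⟩ := D.exists_ev2 b
  refine ⟨f * (1 - D.eta) + h * D.eta, ?_, ?_⟩
  · simp only [map_add, map_mul, map_sub, map_one, ev1_eta, hf]
    ring
  · simp only [map_add, map_mul, map_sub, map_one, ev2_eta, hh]
    ring

lemma exists_R (c : L) : ∃ f : D.R, D.ev1 (f : D.V[X]) = c ∧ D.ev2 (f : D.V[X]) = D.s c := by
  obtain ⟨f, h1, h2⟩ := D.exists_ev c (D.s c)
  exact ⟨⟨f, by rw [mem_R, h1, h2]⟩, h1, h2⟩

theorem isNoetherianRing_R : IsNoetherianRing D.R := by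
  have : IsNoetherianRing D.V := D.noeth
  apply isNoetherianRing_of_conductor D.R D.g D.eta D.g_mul_mem
  · intro b
    obtain ⟨a', h1, h2⟩ := D.exists_R (D.s.symm (D.ev2 b - D.s (D.ev1 b)))
    rw [RingEquiv.apply_symm_apply] at h2
    refine ⟨⟨b - a' * D.eta, ?_⟩, a', ?_⟩
    · rw [mem_R]
      simp only [map_sub, map_mul, ev1_eta, ev2_eta, h2]
      simp
    · simp
  · intro h
    have := h.map D.ev1
    rw [ev1_g] at this
    exact not_isUnit_zero this
  · intro a
    have ha : D.s (D.ev1 (a : D.V[X])) = D.ev2 (a : D.V[X]) := a.2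
    by_cases h : D.ev1 (a : D.V[X]) = 0
    · left
      rw [h, map_zero] at ha
      exact D.g_dvd h ha.symm
    · right
      obtain ⟨a', h1, h2⟩ := D.exists_R (D.ev1 (a : D.V[X]))⁻¹
      refine ⟨a', ?_⟩
      have hs : D.s (D.ev1 (a : D.V[X])) ≠ 0 := by
        intro h'
        exact h ((map_eq_zero_iff _ D.s.injective).mp h')
      obtain ⟨b, hb⟩ := D.g_dvd (f := (a' : D.V[X]) * a - 1)
        (by rw [map_sub, map_mul, h1, map_one, inv_mul_cancel₀ h, sub_self])
        (by rw [map_sub, map_mul, h2, ← ha, map_inv₀, map_one, inv_mul_cancel₀ hs, sub_self])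
      exact ⟨b, by rw [← hb]; ring⟩

instance charP_V [CharP L p] : CharP D.V p :=
  RingHom.charP D.V.subtype Subtype.val_injective p

instance charP_R [CharP L p] : CharP D.R p :=
  RingHom.charP D.R.subtype Subtype.val_injective p

/-- The distinguished prime. -/
noncomputable def P : Ideal D.R := RingHom.ker (D.ev2.comp D.R.subtype)

instance isPrime_P : D.P.IsPrime := RingHom.ker_isPrime _

lemma mem_P {f : D.R} : f ∈ D.P ↔ D.ev2 (f : D.V[X]) = 0 := RingHom.mem_ker

theorem evalIdeal_le [Fact p.Prime] [CharP L p] : evalIdeal D.R p ≤ D.P := by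
  intro r hr
  obtain ⟨φ, h1, rfl⟩ := perf_restrict D.R p r hr
  rw [mem_P]
  exact D.ev2_apply_one φ h1

theorem perfIsSolid [hp : Fact p.Prime] [CharP L p] : PerfIsSolid D.R p := by
  let K : D.V[X] →+ D.V[X] := polyCartier p hp.out.ne_zero D.κ
  have hK : ∀ a b, K (a ^ p * b) = a * K b := polyCartier_mul p _ D.κ D.κ_mul
  have hK1 : K 1 = 1 := by
    have := polyCartier_C p hp.out.ne_zero D.κ 1
    rwa [D.κ_one, C_1] at this
  have hKn : ∀ n a b, K^[n] (a ^ p ^ n * b) = a * K^[n] b := by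
    intro n
    induction n with
    | zero => intro a b; simp
    | succ n ih =>
      intro a b
      rw [Function.iterate_succ_apply, Function.iterate_succ_apply, pow_succ, pow_mul, hK, ih]
  let lam : ℕ → D.R →+ D.R := fun n =>
    { toFun := fun f => ⟨D.g * K^[n] (f : D.V[X]), D.g_mul_mem _⟩
      map_zero' := by
        apply Subtype.ext
        change D.g * K^[n] 0 = 0
        rw [iterate_map_zero, mul_zero]
      map_add' := by
        intro a b
        apply Subtype.ext
        change D.g * K^[n] ((a : D.V[X]) + b) = D.g * K^[n] (a : D.V[X]) + D.g * K^[n] (b : D.V[X])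
        rw [iterate_map_add, mul_add] }
  obtain ⟨φ, hφ⟩ := exists_perf_linear D.R p lam
    (by
      intro n x
      apply Subtype.ext
      change D.g * K^[n + 1] ((x : D.V[X]) ^ p) = D.g * K^[n] (x : D.V[X])
      rw [Function.iterate_succ_apply]
      congr 2
      have := hK (x : D.V[X]) 1
      rwa [mul_one, hK1, mul_one] at this)
    (by
      intro n a x
      apply Subtype.ext
      change D.g * K^[n] ((a : D.V[X]) ^ p ^ n * x) = a * (D.g * K^[n] (x : D.V[X]))
      rw [hKn]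
      ring)
  refine ⟨φ, ?_⟩
  intro h
  have h1 := hφ 0 1
  rw [h] at h1
  have h2 := congrArg (fun r : D.R => (r : D.V[X])) h1
  change (0 : D.V[X]) = D.g * K^[0] (1 : D.V[X]) at h2
  rw [Function.iterate_zero, id, mul_one] at h2
  exact D.g_ne h2.symm

include D in
/-- The map `κ` extends to `L`. -/
theorem exists_kappaL (hp : 0 < p) :
    ∃ κL : L →+ L, (∀ a b, κL (a ^ p * b) = a * κL b) ∧ κL 1 = 1 := by
  have hloc : IsLocalization (Submonoid.powers D.xV) L := by
    refine ⟨?_, ?_, ?_⟩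
    · rintro ⟨_, n, rfl⟩
      rw [isUnit_iff_ne_zero]
      change ((D.xV ^ n : D.V) : L) ≠ 0
      rw [SubmonoidClass.coe_pow]
      exact pow_ne_zero _ D.x_ne
    · intro l
      obtain ⟨n, hn⟩ := D.exists_pow l
      refine ⟨⟨⟨_, hn⟩, ⟨_, n, rfl⟩⟩, ?_⟩
      change l * ((D.xV ^ n : D.V) : L) = D.x ^ n * l
      rw [SubmonoidClass.coe_pow, coe_xV, mul_comm]
    · intro a b hab
      refine ⟨1, ?_⟩
      have : a = b := Subtype.ext hab
      rw [this]
  obtain ⟨ψ, h1, h2⟩ := exists_cartier_localization (R := D.V) (B := L)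
    (Submonoid.powers D.xV) p hp (D.V.subtype.toAddMonoidHom.comp D.κ)
    (by
      intro a b
      change ((D.κ (a ^ p * b) : D.V) : L) = a * (D.κ b : D.V)
      rw [D.κ_mul]
      rfl)
  refine ⟨ψ, h1, ?_⟩
  have := h2 1
  rw [map_one] at this
  rw [this]
  change ((D.κ 1 : D.V) : L) = 1
  rw [D.κ_one]
  rfl

end WildData

section Point

variable {L : Type} [Field L] {p : ℕ}

/-- The coefficientwise `p⁻¹`-linear map with respect to the expansion at the point `c`. -/
noncomputable def ptCartier (p : ℕ) (hp : p ≠ 0) (κ : L →+ L) (c : L) : L[X] →+ L[X] where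
  toFun f := (polyCartier p hp κ (f.comp (X + C c))).comp (X - C c)
  map_zero' := by simp
  map_add' f g := by simp

lemma ptCartier_apply (hp : p ≠ 0) (κ : L →+ L) (c : L) (f : L[X]) :
    ptCartier p hp κ c f = (polyCartier p hp κ (f.comp (X + C c))).comp (X - C c) := rfl

lemma ptCartier_mul [Fact p.Prime] [CharP L p] (hp : p ≠ 0) (κ : L →+ L)
    (hκ : ∀ a b, κ (a ^ p * b) = a * κ b) (c : L) (f g : L[X]) :
    ptCartier p hp κ c (f ^ p * g) = f * ptCartier p hp κ c g := by
  rw [ptCartier_apply, mul_comp, pow_comp, polyCartier_mul p hp κ hκ, mul_comp, comp_assoc]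
  congr 1
  simp

lemma eval_ptCartier (hp : p ≠ 0) (κ : L →+ L) (c : L) (f : L[X]) :
    eval c (ptCartier p hp κ c f) = κ (eval c f) := by
  rw [ptCartier_apply, eval_comp]
  simp only [eval_sub, eval_X, eval_C, sub_self]
  rw [← coeff_zero_eq_eval_zero, coeff_polyCartier, mul_zero, coeff_zero_eq_eval_zero, eval_comp]
  simp

lemma ptCartier_one (hp : p ≠ 0) (κ : L →+ L) (h1 : κ 1 = 1) (c : L) :
    ptCartier p hp κ c 1 = 1 := by
  rw [ptCartier_apply, one_comp, ← C_1, polyCartier_C, h1]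
  simp

end Point

namespace WildData

variable {p : ℕ} {L : Type} [Field L] (D : WildData p L)

/-- The ring `B`, which is `R` with `x` inverted. -/
noncomputable def B : Subring L[X] :=
  RingHom.eqLocus (D.s.toRingHom.comp (evalRingHom D.x⁻¹)) (evalRingHom (D.z * D.x⁻¹))

lemma mem_B {f : L[X]} : f ∈ D.B ↔ D.s (eval D.x⁻¹ f) = eval (D.z * D.x⁻¹) f := Iff.rfl

/-- The inclusion of `R` in `B`. -/
noncomputable def iota : D.R →+* D.B :=
  RingHom.codRestrict ((mapRingHom D.V.subtype).comp D.R.subtype) D.B (by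
    intro f
    rw [mem_B]
    have h : D.s (D.ev1 (f : D.V[X])) = D.ev2 (f : D.V[X]) := f.2
    simp only [RingHom.comp_apply, coe_mapRingHom, eval_map]
    exact h)

lemma coe_iota (f : D.R) : (D.iota f : L[X]) = (f : D.V[X]).map D.V.subtype := rfl

lemma iota_injective : Function.Injective D.iota := by
  intro a b h
  have h1 := congrArg (fun f : D.B => (f : L[X])) h
  simp only [coe_iota] at h1
  exact Subtype.ext (Polynomial.map_injective _ Subtype.val_injective h1)

lemma C_x_mem : C D.xV ∈ D.R := by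
  rw [mem_R, ev1_C, ev2_C]
  exact D.s_x

/-- The element `x` of `R`. -/
noncomputable def xR : D.R := ⟨C D.xV, D.C_x_mem⟩

/-- Every element of `L[y]` is in `V[y]` up to a power of `x`. -/
lemma exists_pow_poly (f : L[X]) : ∃ (n : ℕ) (h : D.V[X]), C D.x ^ n * f = h.map D.V.subtype := by
  induction f using Polynomial.induction_on' with
  | add f₁ f₂ h₁ h₂ =>
    obtain ⟨n, a, ha⟩ := h₁
    obtain ⟨m, b, hb⟩ := h₂
    refine ⟨n + m, C D.xV ^ m * a + C D.xV ^ n * b, ?_⟩
    simp only [Polynomial.map_add, Polynomial.map_mul, Polynomial.map_pow, map_C,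
      Subring.coe_subtype, coe_xV, ← ha, ← hb]
    ring
  | monomial k l =>
    obtain ⟨n, hn⟩ := D.exists_pow l
    refine ⟨n, monomial k ⟨_, hn⟩, ?_⟩
    rw [map_monomial, ← C_pow, C_mul_monomial]
    rfl

theorem frobeniusSplit [hp : Fact p.Prime] [CharP L p] :
    FrobeniusSplit (Localization.AtPrime D.P) p := by
  have hp0 : p ≠ 0 := hp.out.ne_zero
  obtain ⟨κL, hκ, hκ1⟩ := D.exists_kappaL hp.out.pos
  let κ2 : L →+ L := (D.s.toAddEquiv.toAddMonoidHom.comp κL).comp
    D.s.symm.toAddEquiv.toAddMonoidHom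
  have hκ2a : ∀ l, κ2 l = D.s (κL (D.s.symm l)) := fun l => rfl
  have hκ2 : ∀ a b, κ2 (a ^ p * b) = a * κ2 b := by
    intro a b
    rw [hκ2a, hκ2a, map_mul, map_pow, hκ, map_mul, RingEquiv.apply_symm_apply]
  have hκ21 : κ2 1 = 1 := by
    rw [hκ2a, map_one, hκ1, map_one]
  have hxz : D.z * D.x⁻¹ - D.x⁻¹ ≠ 0 := by
    have h1 := D.z1_ne
    have h2 := D.x_ne
    rw [show D.z * D.x⁻¹ - D.x⁻¹ = (D.z - 1) * D.x⁻¹ by ring]
    exact mul_ne_zero h1 (inv_ne_zero h2)
  let e2 : L[X] := C (D.z * D.x⁻¹ - D.x⁻¹)⁻¹ * (X - C D.x⁻¹)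
  let σ1 := ptCartier p hp0 κL D.x⁻¹
  let σ2 := ptCartier p hp0 κ2 (D.z * D.x⁻¹)
  let φ : L[X] →+ L[X] := (AddMonoidHom.mulLeft (1 - e2)).comp σ1 +
    (AddMonoidHom.mulLeft e2).comp σ2
  have hφa : ∀ f, φ f = (1 - e2) * σ1 f + e2 * σ2 f := fun f => rfl
  have hφ : ∀ a b, φ (a ^ p * b) = a * φ b := by
    intro a b
    rw [hφa, hφa]
    simp only [σ1, σ2]
    rw [ptCartier_mul hp0 κL hκ, ptCartier_mul hp0 κ2 hκ2]
    ring
  have hφ1 : φ 1 = 1 := by
    rw [hφa]
    simp only [σ1, σ2]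
    rw [ptCartier_one hp0 κL hκ1, ptCartier_one hp0 κ2 hκ21]
    ring
  have he1 : eval D.x⁻¹ e2 = 0 := by simp [e2]
  have he2 : eval (D.z * D.x⁻¹) e2 = 1 := by
    simp only [e2, eval_mul, eval_C, eval_sub, eval_X]
    exact inv_mul_cancel₀ hxz
  have hφB : ∀ f ∈ D.B, φ f ∈ D.B := by
    intro f hf
    rw [mem_B] at hf ⊢
    rw [hφa]
    simp only [eval_add, eval_mul, eval_sub, eval_one, he1, he2, sub_zero, one_mul, zero_mul,
      add_zero, sub_self, zero_add]
    simp only [σ1, σ2]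
    rw [eval_ptCartier, eval_ptCartier, ← hf, hκ2a, RingEquiv.symm_apply_apply]
  -- the localization
  letI : Algebra D.R D.B := D.iota.toAlgebra
  have halg : ∀ f, algebraMap D.R D.B f = D.iota f := fun f => rfl
  have hloc : IsLocalization (Submonoid.powers D.xR) D.B := by
    refine ⟨?_, ?_, ?_⟩
    · rintro ⟨_, n, rfl⟩
      simp only
      rw [map_pow]
      apply IsUnit.pow
      have hmem : C D.x⁻¹ ∈ D.B := by
        rw [mem_B, eval_C, eval_C, map_inv₀, D.s_x]
      refine IsUnit.of_mul_eq_one ⟨_, hmem⟩ ?_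
      apply Subtype.ext
      change (C D.xV).map D.V.subtype * C D.x⁻¹ = 1
      rw [map_C, ← C_mul, ← C_1]
      congr 1
      exact mul_inv_cancel₀ D.x_ne
    · rintro ⟨f, hf⟩
      obtain ⟨n, h, hh⟩ := D.exists_pow_poly f
      have hR : h ∈ D.R := by
        rw [mem_R]
        have e1 : D.ev1 h = D.x ^ n * eval D.x⁻¹ f := by
          change eval₂ D.V.subtype _ h = _
          rw [← eval_map, ← hh]
          simp
        have e2 : D.ev2 h = D.x ^ n * eval (D.z * D.x⁻¹) f := by
          change eval₂ D.V.subtype _ h = _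
          rw [← eval_map, ← hh]
          simp
        rw [e1, e2, map_mul, map_pow, D.s_x]
        rw [mem_B] at hf
        rw [hf]
      refine ⟨⟨⟨h, hR⟩, ⟨_, n, rfl⟩⟩, ?_⟩
      apply Subtype.ext
      change f * ((D.iota (D.xR ^ n) : D.B) : L[X]) = h.map D.V.subtype
      rw [← hh, coe_iota, mul_comm]
      congr 1
      change ((C D.xV) ^ n).map D.V.subtype = C D.x ^ n
      rw [Polynomial.map_pow, map_C]
      rfl
    · intro a b hab
      refine ⟨1, ?_⟩
      rw [D.iota_injective hab]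
  have hxunit : ∀ y : Submonoid.powers D.xR,
      IsUnit (algebraMap D.R (Localization.AtPrime D.P) y) := by
    rintro ⟨_, n, rfl⟩
    simp only
    rw [map_pow]
    apply IsUnit.pow
    refine IsLocalization.map_units (M := D.P.primeCompl) _ ⟨D.xR, ?_⟩
    intro h
    rw [SetLike.mem_coe, mem_P] at h
    change D.ev2 (C D.xV) = 0 at h
    rw [ev2_C] at h
    exact D.x_ne h
  let j : D.B →+* Localization.AtPrime D.P := IsLocalization.lift hxunit
  have hj : ∀ f, j (D.iota f) = algebraMap D.R (Localization.AtPrime D.P) f := by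
    intro f
    exact IsLocalization.lift_eq hxunit f
  let φR : D.R →+ Localization.AtPrime D.P :=
    { toFun := fun f => j ⟨φ (D.iota f : L[X]), hφB _ (D.iota f).2⟩
      map_zero' := by
        have : (⟨φ (D.iota 0 : L[X]), hφB _ (D.iota 0).2⟩ : D.B) = 0 := by
          apply Subtype.ext
          change φ (D.iota 0 : L[X]) = 0
          rw [map_zero D.iota]
          exact map_zero φ
        rw [this, map_zero]
      map_add' := by
        intro a b
        rw [← map_add j]
        congr 1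
        apply Subtype.ext
        change φ (D.iota (a + b) : L[X]) = φ (D.iota a : L[X]) + φ (D.iota b : L[X])
        rw [map_add D.iota, ← map_add φ]
        rfl }
  have hφRa : ∀ f, φR f = j ⟨φ (D.iota f : L[X]), hφB _ (D.iota f).2⟩ := fun f => rfl
  have hφR : ∀ a b, φR (a ^ p * b) = algebraMap D.R (Localization.AtPrime D.P) a * φR b := by
    intro a b
    rw [← hj, hφRa, hφRa, ← map_mul j]
    congr 1
    apply Subtype.ext
    change φ (D.iota (a ^ p * b) : L[X]) = (D.iota a : L[X]) * φ (D.iota b : L[X])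
    rw [← hφ, map_mul D.iota, map_pow D.iota]
    rfl
  obtain ⟨ψ, hψ, hψ1⟩ := exists_cartier_localization D.P.primeCompl p hp.out.pos φR hφR
  have h1 : ψ 1 = 1 := by
    have := hψ1 1
    rw [map_one] at this
    rw [this, hφRa]
    have h2 : (⟨φ (D.iota 1 : L[X]), hφB _ (D.iota 1).2⟩ : D.B) = 1 := by
      apply Subtype.ext
      change φ (D.iota 1 : L[X]) = 1
      rw [map_one D.iota]
      exact hφ1
    rw [h2, map_one]
  refine ⟨ψ, hψ, ?_⟩
  intro r
  have := hψ r 1
  rwa [mul_one, h1, mul_one] at this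

/-- The summary. -/
theorem main [Fact p.Prime] [CharP L p] :
    IsNoetherianRing D.R ∧ PerfIsSolid D.R p ∧ evalIdeal D.R p ≤ D.P ∧
      FrobeniusSplit (Localization.AtPrime D.P) p :=
  ⟨D.isNoetherianRing_R, D.perfIsSolid, D.evalIdeal_le, D.frobeniusSplit⟩

end WildData

end Pool.Agent.Lib_helper31
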